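import Pool.Agent.Helper14.LE.Stmts2

set_option autoImplicit false

open MeasureTheory Set Filter Topology InnerProductSpace Laplacian Metric

noncomputable section

namespace LEP
namespace H6

section Gen

variable {E : Type} [NormedAddCommGroup E] [InnerProductSpace ℝ E]

theorem rad_hasFDerivAt {φ : ℝ → ℝ} {a e : ℝ} {x : E} (h : HasDerivAt φ a (‖x‖ ^ 2 + e)) :
    HasFDerivAt (fun x : E => φ (‖x‖ ^ 2 + e)) ((2 * a) • (innerSL ℝ x)) x := by
  have h1 : HasFDerivAt (fun x : E => ‖x‖ ^ 2) (2 • (innerSL ℝ x)) x :=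
    (hasStrictFDerivAt_norm_sq x).hasFDerivAt
  have h2 : HasFDerivAt (fun x : E => ‖x‖ ^ 2 + e) (2 • (innerSL ℝ x)) x := h1.add_const _
  have h3 := h.comp_hasFDerivAt x h2
  have h4 : a • (2 • (innerSL ℝ x)) = ((2 * a) • (innerSL ℝ x) : E →L[ℝ] ℝ) := by
    ext v
    simp only [smul_apply, innerSL_apply_apply, smul_eq_mul, nsmul_eq_mul]
    push_cast
    ring
  rw [h4] at h3
  exact h3

variable [FiniteDimensional ℝ E]

/-- Laplacian of a radial function -/
theorem lap_radial {φ φ' φ'' : ℝ → ℝ} {e : ℝ} (he : 0 < e)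
    (h1 : ∀ t, 0 < t → HasDerivAt φ (φ' t) t) (h2 : ∀ t, 0 < t → HasDerivAt φ' (φ'' t) t)
    (hs : ContDiff ℝ 2 (fun x : E => φ (‖x‖ ^ 2 + e))) (x : E) :
    (Δ (fun x : E => φ (‖x‖ ^ 2 + e))) x =
      4 * ‖x‖ ^ 2 * φ'' (‖x‖ ^ 2 + e) + 2 * (Module.finrank ℝ E) * φ' (‖x‖ ^ 2 + e) := by
  have hpos : ∀ x : E, 0 < ‖x‖ ^ 2 + e := fun x => by positivity
  rw [laplacian_eq_iteratedFDeriv_stdOrthonormalBasis]
  have hfd : ∀ x : E, fderiv ℝ (fun x : E => φ (‖x‖ ^ 2 + e)) x = (2 * φ' (‖x‖ ^ 2 + e)) • (innerSL ℝ x) :=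
    fun x => (rad_hasFDerivAt (h1 _ (hpos x))).fderiv
  have hd : DifferentiableAt ℝ (fderiv ℝ (fun x : E => φ (‖x‖ ^ 2 + e))) x :=
    (hs.contDiffAt.fderiv_right (m := 1) (by norm_num)).differentiableAt one_ne_zero
  have key : ∀ v : E, iteratedFDeriv ℝ 2 (fun x : E => φ (‖x‖ ^ 2 + e)) x ![v, v] =
      4 * φ'' (‖x‖ ^ 2 + e) * (inner ℝ x v) ^ 2 + 2 * φ' (‖x‖ ^ 2 + e) * ‖v‖ ^ 2 := by
    intro v
    rw [iteratedFDeriv_two_apply]
    simp only [Matrix.cons_val_zero, Matrix.cons_val_one]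
    have e1 := hd.hasFDerivAt.clm_apply (hasFDerivAt_const v x)
    have e2 : (fun y => fderiv ℝ (fun x : E => φ (‖x‖ ^ 2 + e)) y v) =
        fun y => (2 * φ' (‖y‖ ^ 2 + e)) * (inner ℝ y v) := by
      ext y
      rw [hfd y]
      simp
    have e3 : fderiv ℝ (fun y => fderiv ℝ (fun x : E => φ (‖x‖ ^ 2 + e)) y v) x v =
        fderiv ℝ (fderiv ℝ (fun x : E => φ (‖x‖ ^ 2 + e))) x v v := by
      rw [e1.fderiv]; simp
    rw [← e3, e2]
    have e4 : HasFDerivAt (fun y : E => 2 * φ' (‖y‖ ^ 2 + e))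
        ((2:ℝ) • ((2 * φ'' (‖x‖ ^ 2 + e)) • (innerSL ℝ x))) x :=
      (rad_hasFDerivAt (h2 _ (hpos x))).const_mul (2:ℝ)
    have e5 : HasFDerivAt (fun y : E => (inner ℝ y v : ℝ)) (innerSL ℝ v) x := by
      have := (innerSL ℝ v).hasFDerivAt (x := x)
      refine this.congr_of_eventuallyEq (Eventually.of_forall (fun y => ?_))
      simp [real_inner_comm]
    have e6 : HasFDerivAt (fun y : E => 2 * φ' (‖y‖ ^ 2 + e) * (inner ℝ y v : ℝ))
      ((2 * φ' (‖x‖ ^ 2 + e)) • (innerSL ℝ) v + (inner ℝ x v : ℝ) •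
        ((2:ℝ) • ((2 * φ'' (‖x‖ ^ 2 + e)) • (innerSL ℝ x)))) x := e4.mul e5
    rw [e6.fderiv]
    simp only [add_apply, smul_apply, innerSL_apply_apply, smul_eq_mul]
    rw [real_inner_self_eq_norm_sq]
    ring
  simp only [key]
  rw [Finset.sum_add_distrib, ← Finset.mul_sum, ← Finset.mul_sum]
  have s1 : ∑ i, (inner ℝ x ((stdOrthonormalBasis ℝ E) i)) ^ 2 = ‖x‖ ^ 2 := by
    have := (stdOrthonormalBasis ℝ E).sum_sq_norm_inner_left x
    simpa using this
  have s2 : ∑ i : Fin (Module.finrank ℝ E), ‖(stdOrthonormalBasis ℝ E) i‖ ^ 2 = (Module.finrank ℝ E : ℝ) := by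
    simp
  rw [s1, s2]
  ring

variable [MeasurableSpace E] [BorelSpace E]

theorem ae_ne_zero (hd : 1 ≤ Module.finrank ℝ E) : ∀ᵐ x : E, x ≠ 0 := by
  have : Nontrivial E := Module.nontrivial_of_finrank_pos (R := ℝ) (by omega)
  have : (volume : Measure E) {0} = 0 := measure_singleton 0
  exact measure_eq_zero_iff_ae_notMem.1 this

/-- general construction of a fundamental solution `φ(|x|²)` -/
theorem fund_gen {φ φ' φ'' : ℝ → ℝ} {Φ : E → ℝ}
    (hd : 1 ≤ Module.finrank ℝ E)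
    (h1 : ∀ t, 0 < t → HasDerivAt φ (φ' t) t) (h2 : ∀ t, 0 < t → HasDerivAt φ' (φ'' t) t)
    (hsm : ∀ t, 0 < t → ContDiffAt ℝ (⊤ : ℕ∞) φ t)
    (hm : Measurable (fun x : E => φ (‖x‖ ^ 2)))
    (hB : ∀ R : ℝ, ∃ C α : ℝ, α < Module.finrank ℝ E ∧ ∀ x : E, ‖x‖ < R → x ≠ 0 → ∀ e : ℝ, 0 ≤ e → e ≤ 1 →
      |φ (‖x‖ ^ 2 + e)| ≤ C * ‖x‖ ^ (-α))
    (hJ : ∃ C α : ℝ, α < Module.finrank ℝ E ∧ ∀ x : E, x ≠ 0 → ∀ e : ℝ, 0 ≤ e →
      |2 * φ' (‖x‖ ^ 2 + e)| * ‖x‖ ≤ C * ‖x‖ ^ (-α))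
    (hΦ : ∀ δ : ℝ, 0 < δ → ∀ x : E, 4 * ‖x‖ ^ 2 * φ'' (‖x‖ ^ 2 + δ ^ 2) +
      2 * (Module.finrank ℝ E) * φ' (‖x‖ ^ 2 + δ ^ 2) = (δ ^ Module.finrank ℝ E)⁻¹ * Φ (δ⁻¹ • x))
    (hΦi : Integrable Φ) (hΦ0 : ∫ x, Φ x ≠ 0) :
    Fund (E := E) (fun x => φ (‖x‖ ^ 2)) (fun n x => φ (‖x‖ ^ 2 + 1 / ((n : ℝ) + 1) ^ 2)) (∫ x, Φ x) := by
  set ε : ℕ → ℝ := fun n => 1 / ((n : ℝ) + 1) with hε
  have hε0 : ∀ n, 0 < ε n := fun n => by rw [hε]; positivity
  have hε1 : ∀ n, ε n ≤ 1 := fun n => by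
    rw [hε]; simp only
    rw [div_le_one (by positivity)]
    linarith [Nat.cast_nonneg (α := ℝ) n]
  have hεt : Tendsto ε atTop (𝓝 0) := tendsto_one_div_add_atTop_nhds_zero_nat
  have hεsq : ∀ n : ℕ, 1 / ((n : ℝ) + 1) ^ 2 = ε n ^ 2 := fun n => by
    rw [hε]; simp only; rw [div_pow, one_pow]
  have hε2 : ∀ n, ε n ^ 2 ≤ 1 := fun n => by
    have := hε0 n; have := hε1 n; nlinarith
  have hε2t : Tendsto (fun n => ε n ^ 2) atTop (𝓝 0) := by
    have := hεt.pow 2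
    simpa using this
  simp_rw [hεsq]
  have hne := ae_ne_zero (E := E) hd
  have hcont : ∀ t, 0 < t → ContinuousAt φ t := fun t ht => (h1 t ht).continuousAt
  have hcont' : ∀ t, 0 < t → ContinuousAt φ' t := fun t ht => (h2 t ht).continuousAt
  have hsmn : ∀ n, ContDiff ℝ (⊤ : ℕ∞) (fun x : E => φ (‖x‖ ^ 2 + ε n ^ 2)) := by
    intro n
    rw [contDiff_iff_contDiffAt]
    intro x
    have hp : 0 < ‖x‖ ^ 2 + ε n ^ 2 := by have := hε0 n; positivity
    exact (hsm _ hp).comp x (((contDiff_norm_sq ℝ).add contDiff_const).contDiffAt)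
  have hfn : ∀ n (x : E), fderiv ℝ (fun x : E => φ (‖x‖ ^ 2 + ε n ^ 2)) x =
      (2 * φ' (‖x‖ ^ 2 + ε n ^ 2)) • (innerSL ℝ x) := by
    intro n x
    have hp : 0 < ‖x‖ ^ 2 + ε n ^ 2 := by have := hε0 n; positivity
    exact (rad_hasFDerivAt (h1 _ hp)).fderiv
  have hf0 : ∀ (x : E), x ≠ 0 → fderiv ℝ (fun x : E => φ (‖x‖ ^ 2)) x =
      (2 * φ' (‖x‖ ^ 2)) • (innerSL ℝ x) := by
    intro x hx
    have hp : 0 < ‖x‖ ^ 2 + 0 := by have := norm_pos_iff.2 hx; positivity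
    have := (rad_hasFDerivAt (E := E) (h1 _ hp)).fderiv
    simpa using this
  have hnn : ∀ (a : ℝ) (x : E), ‖a • (innerSL ℝ x : E →L[ℝ] ℝ)‖ = |a| * ‖x‖ := by
    intro a x
    rw [norm_smul, innerSL_apply_norm, Real.norm_eq_abs]
  have hmn : ∀ n, Measurable (fun x : E => φ (‖x‖ ^ 2 + ε n ^ 2)) := fun n => (hsmn n).continuous.measurable
  constructor
  · exact hΦ0
  · intro x; simp
  · intro n x; simp
  · exact hsmn
  · intro x hx
    have hp : 0 < ‖x‖ ^ 2 := by have := norm_pos_iff.2 hx; positivity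
    exact ((hsm _ hp).comp x ((contDiff_norm_sq ℝ).contDiffAt)).contDiffWithinAt
  · rw [locallyIntegrable_iff]
    intro K hK
    obtain ⟨R, hR_pos, hR⟩ := hK.isBounded.exists_pos_norm_lt
    obtain ⟨C, α, hα, hb⟩ := hB R
    refine (integrableOn_ball_of_norm_le_rpow (μ := volume) (C := C) (r := R) hd hα ?_
      hm.aestronglyMeasurable).mono_set (mem_ball_zero_iff.mpr <| hR · ·)
    filter_upwards [ae_restrict_of_ae hne, ae_restrict_mem measurableSet_ball] with x hx hxR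
    have := hb x (by simpa using hxR) hx 0 le_rfl zero_le_one
    rw [Real.norm_eq_abs]
    simpa using this
  · obtain ⟨C, α, hα, hb⟩ := hJ
    refine locallyIntegrable_of_norm_le_rpow (μ := volume) (C := C) (α := α) hd hα ?_ ?_
    · filter_upwards [hne] with x hx
      rw [hf0 x hx, hnn]
      have := hb x hx 0 le_rfl
      simpa using this
    · exact (measurable_fderiv ℝ _).aestronglyMeasurable
  · intro R
    obtain ⟨C, α, hα, hb⟩ := hB R
    have hint : IntegrableOn (fun x : E => 2 * (C * ‖x‖ ^ (-α))) (ball (0:E) R) := by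
      apply Integrable.const_mul
      refine integrableOn_ball_of_norm_le_rpow (μ := volume) (C := |C|) (α := α) hd hα ?_ ?_
      · refine Eventually.of_forall (fun x => ?_)
        rw [norm_mul, Real.norm_eq_abs, Real.norm_eq_abs, abs_of_nonneg (Real.rpow_nonneg (norm_nonneg x) _)]
      · exact ((measurable_norm.pow_const (-α)).const_mul C).aestronglyMeasurable
    have h0 : (0:ℝ) = ∫ x in ball (0:E) R, (0:ℝ) := by simp
    rw [h0]
    refine tendsto_integral_of_dominated_convergence (fun x : E => 2 * (C * ‖x‖ ^ (-α))) ?_ hint ?_ ?_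
    · intro n
      exact (((hmn n).sub hm).abs).aestronglyMeasurable
    · intro n
      filter_upwards [ae_restrict_of_ae hne, ae_restrict_mem measurableSet_ball] with x hx hxR
      have e1 := hb x (by simpa using hxR) hx 0 le_rfl zero_le_one
      have e2 := hb x (by simpa using hxR) hx (ε n ^ 2) (by positivity) (hε2 n)
      rw [add_zero] at e1
      rw [Real.norm_eq_abs, abs_abs]
      calc |φ (‖x‖ ^ 2 + ε n ^ 2) - φ (‖x‖ ^ 2)| ≤ |φ (‖x‖ ^ 2 + ε n ^ 2)| + |φ (‖x‖ ^ 2)| := abs_sub _ _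
        _ ≤ 2 * (C * ‖x‖ ^ (-α)) := by linarith
    · filter_upwards [ae_restrict_of_ae hne] with x hx
      have hp : 0 < ‖x‖ ^ 2 := by have := norm_pos_iff.2 hx; positivity
      have e1 : Tendsto (fun n => φ (‖x‖ ^ 2 + ε n ^ 2)) atTop (𝓝 (φ (‖x‖ ^ 2))) := by
        apply (hcont _ hp).tendsto.comp
        have : Tendsto (fun n => ‖x‖ ^ 2 + ε n ^ 2) atTop (𝓝 (‖x‖ ^ 2 + 0)) :=
          tendsto_const_nhds.add hε2t
        simpa using this
      have e2 := (e1.sub_const (φ (‖x‖ ^ 2))).abs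
      simpa using e2
  · intro R
    obtain ⟨C, α, hα, hb⟩ := hJ
    have hint : IntegrableOn (fun x : E => 2 * (C * ‖x‖ ^ (-α))) (ball (0:E) R) := by
      apply Integrable.const_mul
      refine integrableOn_ball_of_norm_le_rpow (μ := volume) (C := |C|) (α := α) hd hα ?_ ?_
      · refine Eventually.of_forall (fun x => ?_)
        rw [norm_mul, Real.norm_eq_abs, Real.norm_eq_abs, abs_of_nonneg (Real.rpow_nonneg (norm_nonneg x) _)]
      · exact ((measurable_norm.pow_const (-α)).const_mul C).aestronglyMeasurable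
    have h0 : (0:ℝ) = ∫ x in ball (0:E) R, (0:ℝ) := by simp
    rw [h0]
    refine tendsto_integral_of_dominated_convergence (fun x : E => 2 * (C * ‖x‖ ^ (-α))) ?_ hint ?_ ?_
    · intro n
      exact (((measurable_fderiv ℝ _).sub (measurable_fderiv ℝ _)).norm).aestronglyMeasurable
    · intro n
      filter_upwards [ae_restrict_of_ae hne] with x hx
      have e1 := hb x hx 0 le_rfl
      have e2 := hb x hx (ε n ^ 2) (by positivity)
      rw [add_zero] at e1
      rw [norm_norm, hfn n x, hf0 x hx]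
      refine (norm_sub_le _ _).trans ?_
      rw [hnn, hnn]
      linarith
    · filter_upwards [ae_restrict_of_ae hne] with x hx
      have hp : 0 < ‖x‖ ^ 2 := by have := norm_pos_iff.2 hx; positivity
      have e1 : Tendsto (fun n => φ' (‖x‖ ^ 2 + ε n ^ 2)) atTop (𝓝 (φ' (‖x‖ ^ 2))) := by
        apply (hcont' _ hp).tendsto.comp
        have : Tendsto (fun n => ‖x‖ ^ 2 + ε n ^ 2) atTop (𝓝 (‖x‖ ^ 2 + 0)) :=
          tendsto_const_nhds.add hε2t
        simpa using this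
      have e3 : ∀ n, ‖fderiv ℝ (fun x : E => φ (‖x‖ ^ 2 + ε n ^ 2)) x - fderiv ℝ (fun x : E => φ (‖x‖ ^ 2)) x‖ =
          |2 * (φ' (‖x‖ ^ 2 + ε n ^ 2) - φ' (‖x‖ ^ 2))| * ‖x‖ := by
        intro n
        rw [hfn n x, hf0 x hx, ← sub_smul, hnn]
        ring_nf
      simp_rw [e3]
      have e2 := ((((e1.sub_const (φ' (‖x‖ ^ 2))).const_mul 2).abs).mul_const ‖x‖)
      simpa using e2
  · intro f M hf hM hfc hfcont
    have e1 : ∀ n, ∫ x, f x * (Δ (fun x : E => φ (‖x‖ ^ 2 + ε n ^ 2))) x = ∫ y, f (ε n • y) * Φ y := by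
      intro n
      have hn := hε0 n
      have e2 : ∀ x, f x * (Δ (fun x : E => φ (‖x‖ ^ 2 + ε n ^ 2))) x =
          (ε n ^ Module.finrank ℝ E)⁻¹ * (f x * Φ ((ε n)⁻¹ • x)) := by
        intro x
        rw [lap_radial (by positivity) h1 h2 ((hsmn n).of_le (by norm_cast)), hΦ (ε n) hn x]
        ring
      simp_rw [e2]
      rw [integral_const_mul]
      have e3 := Measure.integral_comp_smul (volume : Measure E) (fun x => f x * Φ ((ε n)⁻¹ • x)) (ε n)
      rw [abs_of_nonneg (by positivity), smul_eq_mul] at e3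
      rw [← e3]
      apply integral_congr_ae
      refine Eventually.of_forall (fun y => ?_)
      simp only
      rw [smul_smul, inv_mul_cancel₀ hn.ne', one_smul]
    simp_rw [e1]
    have e4 : (∫ x, Φ x) * f 0 = ∫ y, f 0 * Φ y := by
      rw [integral_const_mul, mul_comm]
    rw [e4]
    refine tendsto_integral_of_dominated_convergence (fun y => M * ‖Φ y‖) ?_ (hΦi.norm.const_mul M) ?_ ?_
    · intro n
      exact ((hf.comp (measurable_const_smul (ε n))).aestronglyMeasurable).mul hΦi.aestronglyMeasurable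
    · intro n
      refine Eventually.of_forall (fun y => ?_)
      rw [norm_mul, Real.norm_eq_abs]
      exact mul_le_mul_of_nonneg_right (hM _) (norm_nonneg _)
    · refine Eventually.of_forall (fun y => ?_)
      apply Tendsto.mul_const
      apply hfcont.tendsto.comp
      have : Tendsto (fun n => ε n • y) atTop (𝓝 ((0:ℝ) • y)) := hεt.smul_const y
      simpa using this

end Gen

theorem rational_int {E : Type} [NormedAddCommGroup E] [InnerProductSpace ℝ E] [FiniteDimensional ℝ E]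
    [MeasurableSpace E] [BorelSpace E] {r : ℝ} (hr : (Module.finrank ℝ E : ℝ) < r) :
    Integrable (fun x : E => (1 + ‖x‖ ^ 2) ^ (-r / 2)) :=
  integrable_rpow_neg_one_add_norm_sq hr

theorem st_FUND2 : ST_FUND2 := by
  have hfin : Module.finrank ℝ ℂ = 2 := Complex.finrank_real_complex
  have hi : Integrable (fun x : ℂ => 2 * ((‖x‖ ^ 2 + 1) ^ 2)⁻¹) := by
    have h := (rational_int (E := ℂ) (r := 4) (by rw [hfin]; norm_num)).const_mul 2
    refine h.congr (Eventually.of_forall (fun x => ?_))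
    simp only
    have hp : 0 < 1 + ‖x‖ ^ 2 := by positivity
    rw [show (-4 / 2 : ℝ) = -((2:ℕ):ℝ) by norm_num, Real.rpow_neg hp.le, Real.rpow_natCast, add_comm]
  have hval : ∫ x : ℂ, 2 * ((‖x‖ ^ 2 + 1) ^ 2)⁻¹ = 2 * Real.pi := by
    have e1 := integral_fun_norm_addHaar (volume : Measure ℂ) (fun r : ℝ => 2 * ((r ^ 2 + 1) ^ 2)⁻¹)
    rw [e1, hfin]
    have e2 : (volume : Measure ℂ).real (ball 0 1) = Real.pi := by
      rw [Measure.real, Complex.volume_ball]
      simp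
    rw [e2]
    have e3 : ∫ y in Ioi (0:ℝ), y ^ (2 - 1) • (2 * ((y ^ 2 + 1) ^ 2)⁻¹) = 1 := by
      have hder : ∀ x ∈ Ici (0:ℝ), HasDerivAt (fun y : ℝ => -(y ^ 2 + 1)⁻¹) (x ^ (2 - 1) • (2 * ((x ^ 2 + 1) ^ 2)⁻¹)) x := by
        intro x _
        have hp : x ^ 2 + 1 ≠ 0 := by positivity
        have h1 : HasDerivAt (fun y : ℝ => y ^ 2 + 1) (2 * x) x := by
          simpa using (hasDerivAt_pow 2 x).add_const 1
        have h2 : HasDerivAt (fun y : ℝ => -(y ^ 2 + 1)⁻¹) (-(-(2 * x) / (x ^ 2 + 1) ^ 2)) x :=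
          (h1.inv hp).neg
        refine h2.congr_deriv ?_
        rw [smul_eq_mul, neg_div, neg_neg, pow_one]
        ring
      have hlim : Tendsto (fun y : ℝ => -(y ^ 2 + 1)⁻¹) atTop (𝓝 0) := by
        have h1 : Tendsto (fun y : ℝ => y ^ 2 + 1) atTop atTop :=
          tendsto_atTop_add_const_right _ _ (tendsto_pow_atTop two_ne_zero)
        have := (tendsto_inv_atTop_zero.comp h1).neg
        simpa using this
      have := integral_Ioi_of_hasDerivAt_of_nonneg' hder (fun x hx => by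
        have : 0 < x := hx
        simp only [smul_eq_mul]
        positivity) hlim
      rw [this]; norm_num
    rw [e3]
    simp
  have key := fund_gen (E := ℂ) (φ := fun t => (1/2) * Real.log t) (φ' := fun t => (1/2) * t⁻¹)
    (φ'' := fun t => (1/2) * (-(t ^ 2)⁻¹)) (Φ := fun x => 2 * ((‖x‖ ^ 2 + 1) ^ 2)⁻¹)
    (by rw [hfin]; norm_num)
    (fun t ht => (Real.hasDerivAt_log ht.ne').const_mul _)
    (fun t ht => (hasDerivAt_inv ht.ne').const_mul _)
    (fun t ht => contDiffAt_const.mul (Real.contDiffAt_log.2 ht.ne'))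
    (by fun_prop)
    (by
      intro R
      refine ⟨(R ^ 2 + 1) * |R| + 1, 1, by rw [hfin]; norm_num, ?_⟩
      intro x hxR hx e he he1
      have hp : 0 < ‖x‖ := norm_pos_iff.2 hx
      have hR : 0 < R := hp.trans hxR
      have hq : 0 < ‖x‖ ^ 2 + e := by positivity
      rw [Real.rpow_neg_one, abs_of_pos hR]
      have u1 : Real.log (‖x‖ ^ 2 + e) ≤ ‖x‖ ^ 2 + e := Real.log_le_self hq.le
      have u2 : Real.log (‖x‖ ^ 2) ≤ Real.log (‖x‖ ^ 2 + e) := Real.log_le_log (by positivity) (by linarith)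
      rw [Real.log_pow] at u2
      push_cast at u2
      have u3 : Real.log (‖x‖⁻¹) ≤ ‖x‖⁻¹ := Real.log_le_self (by positivity)
      rw [Real.log_inv] at u3
      have u4 : 1 ≤ R * ‖x‖⁻¹ := by
        rw [← div_eq_mul_inv, le_div_iff₀ hp]; linarith
      have u5 : ‖x‖ ^ 2 ≤ R ^ 2 := by nlinarith
      have u6 : 0 < ‖x‖⁻¹ := by positivity
      have u7 : (R ^ 2 + 1) ≤ (R ^ 2 + 1) * (R * ‖x‖⁻¹) := by nlinarith [sq_nonneg R]
      rw [abs_le]
      constructor
      · nlinarith [sq_nonneg R]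
      · nlinarith [sq_nonneg R])
    (by
      refine ⟨1, 1, by rw [hfin]; norm_num, ?_⟩
      intro x hx e he
      have hp : 0 < ‖x‖ := norm_pos_iff.2 hx
      rw [Real.rpow_neg_one, one_mul, abs_of_nonneg (by positivity)]
      have : ‖x‖⁻¹ = (‖x‖ ^ 2)⁻¹ * ‖x‖ := by field_simp
      rw [this]
      apply mul_le_mul_of_nonneg_right _ hp.le
      rw [show 2 * (1 / 2 * (‖x‖ ^ 2 + e)⁻¹) = (‖x‖ ^ 2 + e)⁻¹ by ring]
      apply inv_anti₀ (by positivity)
      linarith)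
    (by
      intro δ hδ x
      have hq : 0 < ‖x‖ ^ 2 + δ ^ 2 := by positivity
      rw [norm_smul, norm_inv, Real.norm_eq_abs, abs_of_pos hδ, hfin]
      have h2 : 0 < (δ⁻¹ * ‖x‖) ^ 2 + 1 := by positivity
      field_simp
      push_cast
      ring)
    hi (by rw [hval]; positivity)
  rw [hval] at key
  have e1 : (fun x : ℂ => (1/2) * Real.log (‖x‖ ^ 2)) = fun x : ℂ => Real.log ‖x‖ := by
    ext x; rw [Real.log_pow]; push_cast; ring
  rw [e1] at key
  exact key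

theorem st_FUND6 : ST_FUND6 := by
  have hfin : Module.finrank ℝ E6 = 6 := by simp [E6]
  have hi : Integrable (fun x : E6 => (-24) * ((‖x‖ ^ 2 + 1) ^ 4)⁻¹) := by
    have h := (rational_int (E := E6) (r := 8) (by rw [hfin]; norm_num)).const_mul (-24)
    refine h.congr (Eventually.of_forall (fun x => ?_))
    simp only
    have hp : 0 < 1 + ‖x‖ ^ 2 := by positivity
    rw [show (-8 / 2 : ℝ) = -((4:ℕ):ℝ) by norm_num, Real.rpow_neg hp.le, Real.rpow_natCast, add_comm]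
  have hval : ∫ x : E6, (-24) * ((‖x‖ ^ 2 + 1) ^ 4)⁻¹ ≠ 0 := by
    rw [integral_const_mul]
    apply mul_ne_zero (by norm_num)
    apply ne_of_gt
    have hi' : Integrable (fun x : E6 => ((‖x‖ ^ 2 + 1) ^ 4)⁻¹) := by
      have := hi.const_mul (-24)⁻¹
      refine this.congr (Eventually.of_forall (fun x => ?_))
      simp only
      ring
    have : (0:ℝ) < ∫ x : E6, ((‖x‖ ^ 2 + 1) ^ 4)⁻¹ := by
      rw [integral_pos_iff_support_of_nonneg (fun x => by positivity) hi']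
      have hs : Function.support (fun x : E6 => ((‖x‖ ^ 2 + 1) ^ 4)⁻¹) = univ := by
        ext x
        simp only [Function.mem_support, mem_univ, iff_true]
        positivity
      rw [hs]
      exact Measure.measure_univ_pos.2 (NeZero.ne _)
    exact this
  have key := fund_gen (E := E6) (φ := fun t => (t ^ 2)⁻¹) (φ' := fun t => -2 * (t ^ 3)⁻¹)
    (φ'' := fun t => 6 * (t ^ 4)⁻¹) (Φ := fun x => (-24) * ((‖x‖ ^ 2 + 1) ^ 4)⁻¹)
    (by rw [hfin]; norm_num)
    (by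
      intro t ht
      have h2 : t ^ 2 ≠ 0 := by positivity
      have h3 : HasDerivAt (fun t : ℝ => (t ^ 2)⁻¹) _ t := (hasDerivAt_pow 2 t).inv h2
      refine h3.congr_deriv ?_
      have : t ≠ 0 := ht.ne'
      push_cast
      field_simp)
    (by
      intro t ht
      have h2 : t ^ 3 ≠ 0 := by positivity
      have h3 : HasDerivAt (fun t : ℝ => -2 * (t ^ 3)⁻¹) _ t := ((hasDerivAt_pow 3 t).inv h2).const_mul (-2)
      refine h3.congr_deriv ?_
      have : t ≠ 0 := ht.ne'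
      push_cast
      field_simp
      norm_num)
    (fun t ht => (contDiffAt_id.pow 2).inv (by positivity))
    (by fun_prop)
    (by
      intro R
      refine ⟨1, 4, by rw [hfin]; norm_num, ?_⟩
      intro x hxR hx e he he1
      have hp : 0 < ‖x‖ := norm_pos_iff.2 hx
      rw [abs_of_nonneg (by positivity), one_mul, show (-4:ℝ) = -((4:ℕ):ℝ) by norm_num,
        Real.rpow_neg hp.le, Real.rpow_natCast]
      apply inv_anti₀ (by positivity)
      have : ‖x‖ ^ 2 ≤ ‖x‖ ^ 2 + e := by linarith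
      calc ‖x‖ ^ 4 = (‖x‖ ^ 2) ^ 2 := by ring
        _ ≤ (‖x‖ ^ 2 + e) ^ 2 := by gcongr)
    (by
      refine ⟨4, 5, by rw [hfin]; norm_num, ?_⟩
      intro x hx e he
      have hp : 0 < ‖x‖ := norm_pos_iff.2 hx
      have hq : 0 < ‖x‖ ^ 2 + e := by positivity
      rw [show (-5:ℝ) = -((5:ℕ):ℝ) by norm_num, Real.rpow_neg hp.le, Real.rpow_natCast,
        show 2 * (-2 * ((‖x‖ ^ 2 + e) ^ 3)⁻¹) = -(4 * ((‖x‖ ^ 2 + e) ^ 3)⁻¹) by ring, abs_neg,
        abs_of_nonneg (by positivity)]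
      have h1 : ((‖x‖ ^ 2 + e) ^ 3)⁻¹ ≤ ((‖x‖ ^ 2) ^ 3)⁻¹ := by
        apply inv_anti₀ (by positivity)
        gcongr
        linarith
      calc 4 * ((‖x‖ ^ 2 + e) ^ 3)⁻¹ * ‖x‖ ≤ 4 * ((‖x‖ ^ 2) ^ 3)⁻¹ * ‖x‖ := by gcongr
        _ = 4 * (‖x‖ ^ 5)⁻¹ := by field_simp)
    (by
      intro δ hδ x
      have hq : 0 < ‖x‖ ^ 2 + δ ^ 2 := by positivity
      rw [norm_smul, norm_inv, Real.norm_eq_abs, abs_of_pos hδ, hfin]
      have h2 : 0 < (δ⁻¹ * ‖x‖) ^ 2 + 1 := by positivity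
      field_simp
      push_cast
      ring)
    hi hval
  have e1 : (fun x : E6 => ((‖x‖ ^ 2) ^ 2)⁻¹) = fun x : E6 => (‖x‖ ^ 4)⁻¹ := by
    ext x; rw [← pow_mul]
  rw [e1] at key
  exact ⟨_, key⟩

end H6
end LEP
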