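import Pool.Agent.Helper14.LE.Stmts

set_option autoImplicit false

open MeasureTheory Set Filter Topology InnerProductSpace Laplacian Metric

noncomputable section

namespace LEP
namespace H6

theorem fold_cont : Continuous fold := by
  have : fold = fun z : ℂ => ((|z.re| : ℝ) : ℂ) + ((|z.im| : ℝ) : ℂ) * Complex.I := by
    ext z
    apply Complex.ext <;> simp [fold]
  rw [this]
  fun_prop

theorem fold_norm (z : ℂ) : ‖fold z‖ = ‖z‖ := by
  rw [← sq_eq_sq₀ (norm_nonneg _) (norm_nonneg _), ← Complex.normSq_eq_norm_sq,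
    ← Complex.normSq_eq_norm_sq, Complex.normSq_apply, Complex.normSq_apply]
  simp [fold]

theorem fold_slit {z : ℂ} (hz : z ≠ 0) : fold z ∈ Complex.slitPlane := by
  rw [Complex.mem_slitPlane_iff]
  by_cases h : z.re = 0
  · right
    simp only [fold]
    intro h2
    apply hz
    apply Complex.ext
    · simpa using h
    · simpa using h2
  · left
    simp only [fold]
    positivity

theorem theta_contAt {z : ℂ} (hz : z ≠ 0) : ContinuousAt (fun z => Complex.arg (fold z)) z :=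
  (Complex.continuousAt_arg (fold_slit hz)).comp fold_cont.continuousAt

theorem fold_smul {a : ℝ} (ha : 0 ≤ a) (z : ℂ) : fold (a • z) = (a : ℂ) * fold z := by
  apply Complex.ext
  · simp [fold, abs_mul, abs_of_nonneg ha]
  · simp [fold, abs_mul, abs_of_nonneg ha]

theorem theta_smul {a : ℝ} (ha : 0 < a) (z : ℂ) :
    Complex.arg (fold (a • z)) = Complex.arg (fold z) := by
  rw [fold_smul ha.le, Complex.arg_real_mul _ ha]

theorem Qd_open : IsOpen Qd := by
  have h1 : IsOpen {z : ℂ | 0 < z.re} := isOpen_lt continuous_const Complex.continuous_re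
  have h2 : IsOpen {z : ℂ | 0 < z.im} := isOpen_lt continuous_const Complex.continuous_im
  exact h1.inter h2

theorem Qd_convex : Convex ℝ Qd := by
  have h1 : Convex ℝ {z : ℂ | 0 < z.re} := convex_halfSpace_re_gt 0
  have h2 : Convex ℝ {z : ℂ | 0 < z.im} := convex_halfSpace_im_gt 0
  exact h1.inter h2

theorem fold_Qd {z : ℂ} (hz : z ∈ Qd) : fold z = z := by
  apply Complex.ext
  · simp [fold, abs_of_pos hz.1]
  · simp [fold, abs_of_pos hz.2]

theorem ball_sub {R : ℝ → ℝ} (h : ∀ t, 1 ≤ R t) : ball (0:ℂ) 1 ⊆ Udom R := by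
  intro z hz
  rw [mem_ball_zero_iff] at hz
  exact lt_of_lt_of_le hz (h _)

theorem Udom_open {R : ℝ → ℝ} (hR : Prof R) : IsOpen (Udom R) := by
  rw [isOpen_iff_mem_nhds]
  intro z hz
  by_cases h0 : z = 0
  · rw [h0]
    exact Filter.mem_of_superset (ball_mem_nhds 0 one_pos) (ball_sub hR.one_le)
  · obtain ⟨c, hc1, hc2⟩ := exists_between (show ‖z‖ < R (Complex.arg (fold z)) from hz)
    have h1 := hR.lsc (Complex.arg (fold z)) c hc2
    have h2 := (theta_contAt h0).eventually h1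
    have h3 : ∀ᶠ w in 𝓝 z, ‖w‖ < c := continuous_norm.continuousAt.eventually_lt continuousAt_const hc1
    filter_upwards [h2, h3] with w hw1 hw2
    exact hw2.trans hw1

theorem smul_mem {R : ℝ → ℝ} (hR : Prof R) {z : ℂ} (hz : z ∈ Udom R) {a : ℝ} (ha : 0 ≤ a) (ha1 : a ≤ 1) :
    a • z ∈ Udom R := by
  rcases ha.eq_or_lt with h | h
  · rw [← h, zero_smul]
    exact ball_sub hR.one_le (mem_ball_self one_pos)
  · show ‖a • z‖ < R (Complex.arg (fold (a • z)))
    rw [theta_smul h, norm_smul, Real.norm_eq_abs, abs_of_nonneg ha]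
    have h1 : ‖z‖ < R (Complex.arg (fold z)) := hz
    nlinarith [norm_nonneg z]

theorem Ddom_preconn {R : ℝ → ℝ} (hR : Prof R) : IsPreconnected (Ddom R) := by
  set B : Set ℂ := ball 0 1 ∩ Qd with hB
  have hBc : IsPreconnected B := ((convex_ball _ _).inter Qd_convex).isPreconnected
  have hBD : B ⊆ Ddom R := fun z hz => ⟨ball_sub hR.one_le hz.1, hz.2⟩
  set x0 : ℂ := ⟨1/2, 1/2⟩ with hx0
  have hx0B : x0 ∈ B := by
    refine ⟨?_, by constructor <;> norm_num [hx0]⟩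
    rw [mem_ball_zero_iff]
    have : ‖x0‖ ^ 2 < 1 := by
      rw [← Complex.normSq_eq_norm_sq, Complex.normSq_apply]; norm_num [hx0]
    nlinarith [norm_nonneg x0]
  apply isPreconnected_of_forall x0
  intro y hy
  set T : Set ℂ := (fun a : ℝ => a • y) '' Ioc (0:ℝ) 1 with hT
  have hTc : IsPreconnected T := (isPreconnected_Ioc).image _ (by fun_prop)
  have hTD : T ⊆ Ddom R := by
    rintro _ ⟨a, ha, rfl⟩
    refine ⟨smul_mem hR hy.1 ha.1.le ha.2, ?_⟩
    constructor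
    · simp only [Complex.real_smul, Complex.mul_re, Complex.ofReal_re, Complex.ofReal_im, zero_mul, sub_zero]
      exact mul_pos ha.1 hy.2.1
    · simp only [Complex.real_smul, Complex.mul_im, Complex.ofReal_re, Complex.ofReal_im, zero_mul, add_zero]
      exact mul_pos ha.1 hy.2.2
  have hyT : y ∈ T := ⟨1, by norm_num, by simp⟩
  refine ⟨B ∪ T, union_subset hBD hTD, Or.inl hx0B, Or.inr hyT, ?_⟩
  have ha0 : 0 < (1 + ‖y‖)⁻¹ := by positivity
  have ha1 : (1 + ‖y‖)⁻¹ ≤ 1 := inv_le_one_of_one_le₀ (by linarith [norm_nonneg y])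
  have hwT : (1 + ‖y‖)⁻¹ • y ∈ T := ⟨(1 + ‖y‖)⁻¹, ⟨ha0, ha1⟩, rfl⟩
  have hwB : (1 + ‖y‖)⁻¹ • y ∈ B := by
    refine ⟨?_, (hTD hwT).2⟩
    rw [mem_ball_zero_iff, norm_smul, Real.norm_eq_abs, abs_of_pos ha0, inv_mul_lt_iff₀ (by positivity)]
    linarith
  exact IsPreconnected.union _ hwB hwT hBc hTc

theorem geo1 {R : ℝ → ℝ} (hR : Prof R) : IsOpen (Udom R) ∧ IsOpen (Ddom R) ∧ Bornology.IsBounded (Udom R) ∧
    (0 : ℂ) ∈ Udom R ∧ StarConvex ℝ (0 : ℂ) (Udom R) ∧ IsPreconnected (Ddom R) ∧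
    (∀ z, z ∈ Udom R → starRingEnd ℂ z ∈ Udom R ∧ -z ∈ Udom R) := by
  refine ⟨Udom_open hR, (Udom_open hR).inter Qd_open, ?_, ball_sub hR.one_le (mem_ball_self one_pos), ?_,
    Ddom_preconn hR, ?_⟩
  · obtain ⟨B, hB⟩ := hR.bdd
    apply (isBounded_ball (x := (0:ℂ)) (r := B)).subset
    intro z hz
    rw [mem_ball_zero_iff]
    exact lt_of_lt_of_le hz (hB _)
  · rw [starConvex_zero_iff]
    intro z hz a ha ha1
    exact smul_mem hR hz ha ha1
  · intro z hz
    have h1 : fold (starRingEnd ℂ z) = fold z := by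
      apply Complex.ext <;> simp [fold]
    have h2 : fold (-z) = fold z := by
      apply Complex.ext <;> simp [fold]
    constructor
    · show ‖starRingEnd ℂ z‖ < R (Complex.arg (fold (starRingEnd ℂ z)))
      rw [h1, RCLike.norm_conj]; exact hz
    · show ‖-z‖ < R (Complex.arg (fold (-z)))
      rw [h2, norm_neg]; exact hz

theorem th0_pos : 0 < th0 := by unfold th0; positivity
theorem al0 : al 0 = th0 := rfl
theorem al1 : al 1 = 20 * th0 := rfl
theorem be0 : be 0 = 19 * th0 := by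
  have : be 0 = th0 + Real.pi / ((3:ℕ):ℝ) := rfl
  rw [this, th0]; push_cast; ring
theorem be1 : be 1 = 26 * th0 := by
  have : be 1 = 20 * th0 + Real.pi / ((9:ℕ):ℝ) := rfl
  rw [this, th0]; push_cast; ring

theorem R0_arm0 {Rv : Fin 2 → ℝ} {t : ℝ} (h : al 0 < t ∧ t < be 0) : R0 Rv t = Rv 0 := by
  rw [R0, if_pos h]
theorem R0_arm1 {Rv : Fin 2 → ℝ} {t : ℝ} (h : al 1 < t ∧ t < be 1) : R0 Rv t = Rv 1 := by
  have h0 : ¬ (al 0 < t ∧ t < be 0) := by
    rintro ⟨-, h2⟩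
    rw [be0] at h2; rw [al1] at h
    have := th0_pos
    linarith [h.1]
  rw [R0, if_neg h0, if_pos h]
theorem R0_else {Rv : Fin 2 → ℝ} {t : ℝ} (h0 : ¬ (al 0 < t ∧ t < be 0)) (h1 : ¬ (al 1 < t ∧ t < be 1)) :
    R0 Rv t = 1 := by
  rw [R0, if_neg h0, if_neg h1]

theorem prof_R0 {Rv : Fin 2 → ℝ} (h : ∀ i, 1 ≤ Rv i) : Prof (R0 Rv) := by
  have hone : ∀ t, 1 ≤ R0 Rv t := by
    intro t
    by_cases h0 : al 0 < t ∧ t < be 0
    · rw [R0_arm0 h0]; exact h 0
    · by_cases h1 : al 1 < t ∧ t < be 1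
      · rw [R0_arm1 h1]; exact h 1
      · rw [R0_else h0 h1]
  have hpos := th0_pos
  refine ⟨?_, hone, ?_, ?_, ?_⟩
  · intro t c hc
    by_cases h0 : al 0 < t ∧ t < be 0
    · rw [R0_arm0 h0] at hc
      filter_upwards [Ioo_mem_nhds h0.1 h0.2] with s hs
      rw [R0_arm0 hs]; exact hc
    · by_cases h1 : al 1 < t ∧ t < be 1
      · rw [R0_arm1 h1] at hc
        filter_upwards [Ioo_mem_nhds h1.1 h1.2] with s hs
        rw [R0_arm1 hs]; exact hc
      · rw [R0_else h0 h1] at hc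
        exact Eventually.of_forall (fun s => hc.trans_le (hone s))
  · refine ⟨max (max (Rv 0) (Rv 1)) 1, ?_⟩
    intro t
    by_cases h0 : al 0 < t ∧ t < be 0
    · rw [R0_arm0 h0]; exact (le_max_left _ _).trans (le_max_left _ _)
    · by_cases h1 : al 1 < t ∧ t < be 1
      · rw [R0_arm1 h1]; exact (le_max_right _ _).trans (le_max_left _ _)
      · rw [R0_else h0 h1]; exact le_max_right _ _
  · intro t ht
    apply R0_else
    · rintro ⟨h1, -⟩; rw [al0] at h1; linarith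
    · rintro ⟨h1, -⟩; rw [al1] at h1; linarith
  · intro t ht
    apply R0_else
    · rintro ⟨-, h1⟩; rw [be0] at h1; linarith
    · rintro ⟨-, h1⟩; rw [be1] at h1; linarith

/-- one factor -/
def st (n : ℕ) (a b t : ℝ) : ℝ := Real.smoothTransition (n * (t - a)) * Real.smoothTransition (n * (b - t))

theorem st_nonneg (n : ℕ) (a b t : ℝ) : 0 ≤ st n a b t :=
  mul_nonneg (Real.smoothTransition.nonneg _) (Real.smoothTransition.nonneg _)

theorem st_le_one (n : ℕ) (a b t : ℝ) : st n a b t ≤ 1 :=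
  mul_le_one₀ (Real.smoothTransition.le_one _) (Real.smoothTransition.nonneg _) (Real.smoothTransition.le_one _)

theorem st_zero {n : ℕ} {a b t : ℝ} (h : ¬ (a < t ∧ t < b)) : st n a b t = 0 := by
  rw [st]
  by_cases h1 : a < t
  · have h2 : b ≤ t := by
      by_contra h3
      exact h ⟨h1, not_le.1 h3⟩
    rw [Real.smoothTransition.zero_of_nonpos (x := n * (b - t)), mul_zero]
    apply mul_nonpos_of_nonneg_of_nonpos (Nat.cast_nonneg n)
    linarith
  · rw [Real.smoothTransition.zero_of_nonpos (x := n * (t - a)), zero_mul]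
    apply mul_nonpos_of_nonneg_of_nonpos (Nat.cast_nonneg n)
    linarith

theorem smoothTransition_mono : Monotone Real.smoothTransition := Real.smoothTransition.monotone

theorem st_mono {n m : ℕ} (hnm : n ≤ m) (a b t : ℝ) : st n a b t ≤ st m a b t := by
  by_cases h : a < t ∧ t < b
  · have hc : (n:ℝ) ≤ m := by exact_mod_cast hnm
    apply mul_le_mul
    · apply smoothTransition_mono
      apply mul_le_mul_of_nonneg_right hc (by linarith [h.1])
    · apply smoothTransition_mono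
      apply mul_le_mul_of_nonneg_right hc (by linarith [h.2])
    · exact Real.smoothTransition.nonneg _
    · exact Real.smoothTransition.nonneg _
  · rw [st_zero h]; exact st_nonneg _ _ _ _

theorem st_one {a b t : ℝ} (h : a < t ∧ t < b) : ∃ n : ℕ, st n a b t = 1 := by
  obtain ⟨n1, hn1⟩ := exists_nat_ge (1 / (t - a))
  obtain ⟨n2, hn2⟩ := exists_nat_ge (1 / (b - t))
  refine ⟨max n1 n2, ?_⟩
  have h1 : 0 < t - a := by linarith [h.1]
  have h2 : 0 < b - t := by linarith [h.2]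
  have m1 : (n1:ℝ) ≤ ((max n1 n2 : ℕ) : ℝ) := by exact_mod_cast le_max_left _ _
  have m2 : (n2:ℝ) ≤ ((max n1 n2 : ℕ) : ℝ) := by exact_mod_cast le_max_right _ _
  rw [div_le_iff₀ h1] at hn1
  rw [div_le_iff₀ h2] at hn2
  rw [st, Real.smoothTransition.one_of_one_le, Real.smoothTransition.one_of_one_le, mul_one]
  · nlinarith
  · nlinarith

theorem Rn_eq (Rv : Fin 2 → ℝ) (n : ℕ) (t : ℝ) :
    Rn Rv n t = 1 + (Rv 0 - 1) * st n (al 0) (be 0) t + (Rv 1 - 1) * st n (al 1) (be 1) t := by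
  rw [Rn, st, st]; ring

theorem Rn_le_R0 {Rv : Fin 2 → ℝ} (h : ∀ i, 1 ≤ Rv i) (n : ℕ) (t : ℝ) : Rn Rv n t ≤ R0 Rv t := by
  rw [Rn_eq]
  have hpos := th0_pos
  have g0 := h 0
  have g1 := h 1
  by_cases h0 : al 0 < t ∧ t < be 0
  · have h1 : ¬ (al 1 < t ∧ t < be 1) := by
      rintro ⟨h2, -⟩
      rw [be0] at h0; rw [al1] at h2
      linarith [h0.2]
    rw [R0_arm0 h0, st_zero h1]
    nlinarith [st_le_one n (al 0) (be 0) t]
  · by_cases h1 : al 1 < t ∧ t < be 1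
    · rw [R0_arm1 h1, st_zero h0]
      nlinarith [st_le_one n (al 1) (be 1) t]
    · rw [R0_else h0 h1, st_zero h0, st_zero h1]
      linarith

theorem Rn_mono {Rv : Fin 2 → ℝ} (h : ∀ i, 1 ≤ Rv i) {n m : ℕ} (hnm : n ≤ m) (t : ℝ) :
    Rn Rv n t ≤ Rn Rv m t := by
  rw [Rn_eq, Rn_eq]
  have g0 := h 0
  have g1 := h 1
  have e0 := st_mono hnm (al 0) (be 0) t
  have e1 := st_mono hnm (al 1) (be 1) t
  have f0 : (Rv 0 - 1) * st n (al 0) (be 0) t ≤ (Rv 0 - 1) * st m (al 0) (be 0) t :=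
    mul_le_mul_of_nonneg_left e0 (by linarith)
  have f1 : (Rv 1 - 1) * st n (al 1) (be 1) t ≤ (Rv 1 - 1) * st m (al 1) (be 1) t :=
    mul_le_mul_of_nonneg_left e1 (by linarith)
  linarith

theorem one_le_Rn {Rv : Fin 2 → ℝ} (h : ∀ i, 1 ≤ Rv i) (n : ℕ) (t : ℝ) : 1 ≤ Rn Rv n t := by
  rw [Rn_eq]
  have f0 : 0 ≤ (Rv 0 - 1) * st n (al 0) (be 0) t := mul_nonneg (by linarith [h 0]) (st_nonneg _ _ _ _)
  have f1 : 0 ≤ (Rv 1 - 1) * st n (al 1) (be 1) t := mul_nonneg (by linarith [h 1]) (st_nonneg _ _ _ _)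
  linarith

theorem prof_Rn {Rv : Fin 2 → ℝ} (h : ∀ i, 1 ≤ Rv i) (n : ℕ) : Prof (Rn Rv n) := by
  have hpos := th0_pos
  obtain ⟨B, hB⟩ := (prof_R0 h).bdd
  refine ⟨?_, one_le_Rn h n, ⟨B, fun t => (Rn_le_R0 h n t).trans (hB t)⟩, ?_, ?_⟩
  · apply Continuous.lowerSemicontinuous
    have hc : Continuous Real.smoothTransition := Real.smoothTransition.continuous
    unfold Rn
    fun_prop
  · intro t ht
    apply le_antisymm _ (one_le_Rn h n t)
    rw [← (prof_R0 h).near0 t ht]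
    exact Rn_le_R0 h n t
  · intro t ht
    apply le_antisymm _ (one_le_Rn h n t)
    rw [← (prof_R0 h).near1 t ht]
    exact Rn_le_R0 h n t

theorem Ddom_mono {R R' : ℝ → ℝ} (h : ∀ t, R t ≤ R' t) : Ddom R ⊆ Ddom R' := by
  intro z hz
  exact ⟨lt_of_lt_of_le hz.1 (h _), hz.2⟩

theorem Rn_reach {Rv : Fin 2 → ℝ} (h : ∀ i, 1 ≤ Rv i) (t : ℝ) : ∃ n, R0 Rv t ≤ Rn Rv n t := by
  by_cases h0 : al 0 < t ∧ t < be 0
  · obtain ⟨n, hn⟩ := st_one h0
    refine ⟨n, ?_⟩
    rw [R0_arm0 h0, Rn_eq, hn]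
    have f1 : 0 ≤ (Rv 1 - 1) * st n (al 1) (be 1) t := mul_nonneg (by linarith [h 1]) (st_nonneg _ _ _ _)
    linarith
  · by_cases h1 : al 1 < t ∧ t < be 1
    · obtain ⟨n, hn⟩ := st_one h1
      refine ⟨n, ?_⟩
      rw [R0_arm1 h1, Rn_eq, hn]
      have f1 : 0 ≤ (Rv 0 - 1) * st n (al 0) (be 0) t := mul_nonneg (by linarith [h 0]) (st_nonneg _ _ _ _)
      linarith
    · refine ⟨0, ?_⟩
      rw [R0_else h0 h1]; exact one_le_Rn h 0 t

theorem union_Ddom {Rv : Fin 2 → ℝ} (h : ∀ i, 1 ≤ Rv i) : (⋃ n : ℕ, Ddom (Rn Rv n)) = Ddom (R0 Rv) := by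
  apply Subset.antisymm
  · exact iUnion_subset (fun n => Ddom_mono (Rn_le_R0 h n))
  · intro z hz
    obtain ⟨n, hn⟩ := Rn_reach h (Complex.arg (fold z))
    exact mem_iUnion.2 ⟨n, lt_of_lt_of_le hz.1 hn, hz.2⟩

theorem arm_range {i : Fin 2} : 0 < al i ∧ be i < Real.pi / 2 := by
  have hpos := th0_pos
  have hpi : Real.pi / 2 = 27 * th0 := by rw [th0]; ring
  fin_cases i
  · show 0 < al 0 ∧ be 0 < Real.pi / 2
    rw [al0, be0, hpi]; constructor <;> linarith
  · show 0 < al 1 ∧ be 1 < Real.pi / 2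
    rw [al1, be1, hpi]; constructor <;> linarith

theorem arm_Qd {i : Fin 2} {z : ℂ} (hz : z ∈ Arm i) : z ∈ Qd := by
  obtain ⟨h0, h1, h2⟩ := hz
  have hr := arm_range (i := i)
  have ha : 0 < Complex.arg z := hr.1.trans h1
  have hb : Complex.arg z < Real.pi / 2 := h2.trans hr.2
  have hn : 0 < ‖z‖ := norm_pos_iff.2 h0
  constructor
  · have : 0 < Real.cos (Complex.arg z) := Real.cos_pos_of_mem_Ioo ⟨by linarith [Real.pi_pos], hb⟩
    rw [Complex.cos_arg h0] at this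
    exact (div_pos_iff_of_pos_right hn).1 this
  · have : 0 < Real.sin (Complex.arg z) := Real.sin_pos_of_pos_of_lt_pi ha (by linarith [Real.pi_pos])
    rw [Complex.sin_arg] at this
    exact (div_pos_iff_of_pos_right hn).1 this

theorem R0_of_arm {Rv : Fin 2 → ℝ} {i : Fin 2} {t : ℝ} (h1 : al i < t) (h2 : t < be i) :
    R0 Rv t = Rv i := by
  fin_cases i
  · exact R0_arm0 ⟨h1, h2⟩
  · exact R0_arm1 ⟨h1, h2⟩

theorem armR_sub {Rv : Fin 2 → ℝ} (i : Fin 2) : ArmR i (Rv i) ⊆ Ddom (R0 Rv) := by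
  intro z hz
  have hq := arm_Qd hz.1
  refine ⟨?_, hq⟩
  show ‖z‖ < R0 Rv (Complex.arg (fold z))
  rw [fold_Qd hq, R0_of_arm hz.1.2.1 hz.1.2.2]
  exact hz.2

theorem st_GEO : ST_GEO := by
  refine ⟨fun R hR => geo1 hR, fun Rv h => ⟨prof_R0 h, prof_Rn h, Rn_le_R0 h, ?_, union_Ddom h,
    fun i => armR_sub i, ?_, ?_⟩⟩
  · intro n m hnm
    exact Ddom_mono (Rn_mono h hnm)
  · intro y hy hy1
    have hyQ := hy.2
    have hy0 : y ≠ 0 := by
      rintro rfl
      rw [norm_zero] at hy1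
      linarith
    have h1 : ‖y‖ < R0 Rv (Complex.arg (fold y)) := hy.1
    rw [fold_Qd hyQ] at h1
    by_cases h0 : al 0 < Complex.arg y ∧ Complex.arg y < be 0
    · rw [R0_arm0 h0] at h1
      exact ⟨0, ⟨hy0, h0.1, h0.2⟩, h1⟩
    · by_cases h2 : al 1 < Complex.arg y ∧ Complex.arg y < be 1
      · rw [R0_arm1 h2] at h1
        exact ⟨1, ⟨hy0, h2.1, h2.2⟩, h1⟩
      · rw [R0_else h0 h2] at h1
        linarith
  · intro K hK hKc
    have hsub : K ⊆ ⋃ n : ℕ, Ddom (Rn Rv n) := by rw [union_Ddom h]; exact hK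
    obtain ⟨n, hn⟩ := hKc.elim_directed_cover (fun n : ℕ => Ddom (Rn Rv n))
      (fun n => (Udom_open (prof_Rn h n)).inter Qd_open) hsub
      (Monotone.directed_le (fun n m hnm => Ddom_mono (Rn_mono h hnm)))
    filter_upwards [eventually_ge_atTop n] with m hm
    exact hn.trans (Ddom_mono (Rn_mono h hm))

end H6
end LEP
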