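import Pool.Agent.Helper14.LE.Stmts

set_option autoImplicit false

open MeasureTheory Set Filter Topology InnerProductSpace Laplacian Metric

noncomputable section

namespace LEP
namespace H6

theorem st_MEAS : ST_MEAS := by
  intro D g hD hg
  obtain ⟨h, hc, hh, hgh⟩ := hg.reg
  set V : Set (ℂ × ℂ) := {q | q.1 ∈ D ∧ q.2 ∈ D ∧ q.1 ≠ q.2} with hV
  have hVo : IsOpen V := by
    have h1 : IsOpen {q : ℂ × ℂ | q.1 ∈ D} := hD.preimage continuous_fst
    have h2 : IsOpen {q : ℂ × ℂ | q.2 ∈ D} := hD.preimage continuous_snd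
    have h3 : IsOpen {q : ℂ × ℂ | q.1 ≠ q.2} := isOpen_ne_fun continuous_fst continuous_snd
    have : V = {q : ℂ × ℂ | q.1 ∈ D} ∩ ({q : ℂ × ℂ | q.2 ∈ D} ∩ {q : ℂ × ℂ | q.1 ≠ q.2}) := by
      ext q; rfl
    rw [this]
    exact h1.inter (h2.inter h3)
  have hcont : ContinuousOn (fun q : ℂ × ℂ => g q.1 q.2) V := by
    have h1 : ContinuousOn (fun q : ℂ × ℂ => h q.1 q.2 - (1 / (2 * Real.pi)) * Real.log ‖q.1 - q.2‖) V := by
      apply ContinuousOn.sub
      · apply hc.mono
        intro q hq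
        exact ⟨hq.1, hq.2.1⟩
      · apply ContinuousOn.mul continuousOn_const
        apply ContinuousOn.log
        · fun_prop
        · intro q hq
          exact (norm_pos_iff.2 (sub_ne_zero.2 hq.2.2)).ne'
    refine h1.congr ?_
    intro q hq
    exact hgh q.1 hq.1 q.2 hq.2.1 hq.2.2
  refine ⟨?_, hcont⟩
  classical
  have e : (fun q : ℂ × ℂ => g q.1 q.2) = V.piecewise (fun q : ℂ × ℂ => g q.1 q.2) (fun _ => 0) := by
    ext q
    by_cases hq : q ∈ V
    · rw [piecewise_eq_of_mem _ _ _ hq]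
    · rw [piecewise_eq_of_notMem _ _ _ hq]
      by_cases h1 : q.1 ∈ D
      · by_cases h2 : q.2 ∈ D
        · have h3 : q.1 = q.2 := by
            by_contra hne
            exact hq ⟨h1, h2, hne⟩
          rw [h3]; exact hg.diag _
        · exact hg.off _ _ (Or.inr h2)
      · exact hg.off _ _ (Or.inl h1)
  rw [e]
  exact hcont.measurable_piecewise continuousOn_const hVo.measurableSet

end H6
end LEP
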