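import Pool.Agent.Helper6.LE.MP

set_option autoImplicit false

open MeasureTheory Set Filter Topology InnerProductSpace Laplacian Metric

noncomputable section

namespace LEP
namespace H6

theorem st_MONO (hMP : ST_MP) : ST_MONO := by
  intro D D' g g' hD hD' hDD hg hg' x y
  by_cases hx : x ∈ D
  swap
  · rw [hg.off x y (Or.inl hx)]; exact hg'.nonneg _ _
  by_cases hy : y ∈ D
  swap
  · rw [hg.off x y (Or.inr hy)]; exact hg'.nonneg _ _
  by_cases hxy : x = y
  · rw [hxy, hg.diag]; exact hg'.nonneg _ _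
  obtain ⟨h, -, hh, hgh⟩ := hg.reg
  obtain ⟨h', -, hh', hgh'⟩ := hg'.reg
  have key := hMP D (fun z => h z y - h' z y) hD
    ((hh y hy).sub ((hh' y (hDD hy)).mono hDD)) (fun ε hε => by
      obtain ⟨K', hK'D, hK', hb⟩ := hg.bdry {y} (by simpa using hy) isCompact_singleton ε hε
      refine ⟨K' ∪ {y}, union_subset hK'D (by simpa using hy), hK'.union isCompact_singleton, ?_⟩
      rintro z ⟨hz, hzn⟩
      have hzK : z ∉ K' := fun h => hzn (Or.inl h)
      have hzy : z ≠ y := fun h => hzn (Or.inr h)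
      have h1 := hb y rfl z ⟨hz, hzK⟩
      have h2 := hgh z hz y hy hzy
      have h3 := hgh' z (hDD hz) y (hDD hy) hzy
      have h4 := hg'.nonneg z y
      have : h z y - h' z y = g z y - g' z y := by rw [h2, h3]; ring
      show h z y - h' z y < ε
      linarith) x hx
  have h2 := hgh x hx y hy hxy
  have h3 := hgh' x (hDD hx) y (hDD hy) hxy
  have : h x y - h' x y = g x y - g' x y := by rw [h2, h3]; ring
  have key' : h x y - h' x y ≤ 0 := key
  linarith

theorem st_CMP (hMP : ST_MP) : ST_CMP := by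
  intro D g y k H hD hg hy hH hk hk0 x hx hxy
  obtain ⟨h, -, hh, hgh⟩ := hg.reg
  have key := hMP D (fun z => h z y - H z) hD ((hh y hy).sub hH) (fun ε hε => by
      obtain ⟨K', hK'D, hK', hb⟩ := hg.bdry {y} (by simpa using hy) isCompact_singleton ε hε
      refine ⟨K' ∪ {y}, union_subset hK'D (by simpa using hy), hK'.union isCompact_singleton, ?_⟩
      rintro z ⟨hz, hzn⟩
      have hzK : z ∉ K' := fun h => hzn (Or.inl h)
      have hzy : z ≠ y := fun h => hzn (Or.inr h)
      have h1 := hb y rfl z ⟨hz, hzK⟩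
      have h2 := hgh z hz y hy hzy
      have h3 := hk z hz hzy
      have h4 := hk0 z hz hzy
      have : h z y - H z = g z y - k z := by rw [h2, h3]; ring
      show h z y - H z < ε
      linarith) x hx
  have h2 := hgh x hx y hy hxy
  have h3 := hk x hx hxy
  have : h x y - H x = g x y - k x := by rw [h2, h3]; ring
  have key' : h x y - H x ≤ 0 := key
  linarith

theorem compact_exh {D : ℕ → Set ℂ} (hD : ∀ n, IsOpen (D n)) (hmono : Monotone D) {K : Set ℂ}
    (hK : IsCompact K) (hKD : K ⊆ ⋃ n, D n) : ∃ n, ∀ m ≥ n, K ⊆ D m := by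
  obtain ⟨n, hn⟩ := hK.elim_directed_cover D hD hKD hmono.directed_le
  exact ⟨n, fun m hm => hn.trans (hmono hm)⟩

theorem st_EXH (hMP : ST_MP) (hMONO : ST_MONO) : ST_EXH := by
  intro D D0 g g0 hD hD0 hmono hU hg hg0 x y
  have hsub : ∀ n, D n ⊆ D0 := fun n => by rw [← hU]; exact subset_iUnion D n
  by_cases hx : x ∈ D0
  swap
  · have : ∀ n, g n x y = g0 x y := fun n => by
      rw [hg0.off x y (Or.inl hx), (hg n).off x y (Or.inl (fun h => hx (hsub n h)))]
    simp_rw [this]; exact tendsto_const_nhds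
  by_cases hy : y ∈ D0
  swap
  · have : ∀ n, g n x y = g0 x y := fun n => by
      rw [hg0.off x y (Or.inr hy), (hg n).off x y (Or.inr (fun h => hy (hsub n h)))]
    simp_rw [this]; exact tendsto_const_nhds
  by_cases hxy : x = y
  · have : ∀ n, g n x y = g0 x y := fun n => by
      rw [hxy, hg0.diag, (hg n).diag]
    simp_rw [this]; exact tendsto_const_nhds
  obtain ⟨h0, -, hh0, hgh0⟩ := hg0.reg
  rw [Metric.tendsto_atTop]
  intro η hη
  obtain ⟨K', hK'D, hK', hb⟩ := hg0.bdry {y} (by simpa using hy) isCompact_singleton (η / 2)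
    (by positivity)
  have hKc : IsCompact (K' ∪ {y} ∪ {x}) := (hK'.union isCompact_singleton).union isCompact_singleton
  have hKs : K' ∪ {y} ∪ {x} ⊆ ⋃ n, D n := by
    rw [hU]
    exact union_subset (union_subset hK'D (by simpa using hy)) (by simpa using hx)
  obtain ⟨N, hN⟩ := compact_exh hD hmono hKc hKs
  refine ⟨N, fun n hn => ?_⟩
  have hKn := hN n hn
  have hyn : y ∈ D n := hKn (Or.inl (Or.inr rfl))
  have hxn : x ∈ D n := hKn (Or.inr rfl)
  obtain ⟨h, -, hh, hgh⟩ := (hg n).reg
  have key := hMP (D n) (fun z => h0 z y - h z y - η / 2) (hD n)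
    ((((hh0 y hy).mono (hsub n)).sub (hh y hyn)).sub (harmonicOnNhd_const _)) (fun ε hε => by
      refine ⟨K' ∪ {y}, (subset_union_left).trans hKn, hK'.union isCompact_singleton, ?_⟩
      rintro z ⟨hz, hzn⟩
      have hzK : z ∉ K' := fun h => hzn (Or.inl h)
      have hzy : z ≠ y := fun h => hzn (Or.inr h)
      have h1 := hb y rfl z ⟨hsub n hz, hzK⟩
      have h2 := hgh0 z (hsub n hz) y hy hzy
      have h3 := hgh z hz y hyn hzy
      have h4 := (hg n).nonneg z y
      have : h0 z y - h z y = g0 z y - g n z y := by rw [h2, h3]; ring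
      show h0 z y - h z y - η / 2 < ε
      linarith) x hxn
  have h2 := hgh0 x hx y hy hxy
  have h3 := hgh x hxn y hyn hxy
  have h5 : h0 x y - h x y = g0 x y - g n x y := by rw [h2, h3]; ring
  have key' : h0 x y - h x y - η / 2 ≤ 0 := key
  have h6 := hMONO (D n) D0 (g n) g0 (hD n) hD0 (hsub n) (hg n) hg0 x y
  rw [Real.dist_eq, abs_sub_comm, abs_of_nonneg (by linarith)]
  linarith

theorem st_POS (hGF2 : ST_GF2) (hGEO : ST_GEO) : ST_POS := by
  intro R hR x hx y hy hxy
  have hg := hGF2 R hR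
  obtain ⟨-, hDo, -, -, -, hpc, -⟩ := hGEO.1 R hR
  set D := Ddom R with hDdef
  set g := gD D with hgdef
  rcases (hg.nonneg x y).lt_or_eq with h | h
  · exact h
  exfalso
  obtain ⟨h', hc, hh, hgh⟩ := hg.reg
  have hcy : ContinuousOn (fun z => h' z y) D := (hh y hy).continuousOn
  have hV : IsOpen (D \ {y}) := hDo.sdiff isClosed_singleton
  have hharm : HarmonicOnNhd (fun z => h' z y - (1 / (2 * Real.pi)) * Real.log ‖z - y‖) (D \ {y}) := by
    intro z hz
    apply HarmonicAt.sub (hh y hy z hz.1)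
    have h1 : HarmonicAt (fun z : ℂ => Real.log ‖z - y‖) z :=
      AnalyticAt.harmonicAt_log_norm (analyticAt_id.sub analyticAt_const) (sub_ne_zero.2 hz.2)
    exact h1.const_smul (c := (1 / (2 * Real.pi) : ℝ))
  have hgeq : ∀ z ∈ D \ {y}, g z y = h' z y - (1 / (2 * Real.pi)) * Real.log ‖z - y‖ :=
    fun z hz => hgh z hz.1 y hy hz.2
  set S : Set ℂ := {z | z ∈ D \ {y} ∧ g z y = 0} with hS
  have hSo : IsOpen S := by
    rw [isOpen_iff_mem_nhds]
    rintro z ⟨hz, hz0⟩
    have hlm : IsLocalMax (fun z => -(h' z y - (1 / (2 * Real.pi)) * Real.log ‖z - y‖)) z := by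
      filter_upwards [hV.mem_nhds hz] with w hw
      rw [← hgeq w hw, ← hgeq z hz, hz0]
      have := hg.nonneg w y
      linarith
    filter_upwards [harm_localMax hV hharm.neg hz hlm, hV.mem_nhds hz] with w hw hwV
    refine ⟨hwV, ?_⟩
    have h1 : -(h' w y - (1 / (2 * Real.pi)) * Real.log ‖w - y‖) =
      -(h' z y - (1 / (2 * Real.pi)) * Real.log ‖z - y‖) := hw
    rw [← hgeq w hwV, ← hgeq z hz, hz0] at h1
    linarith
  have hcl : closure S ∩ D ⊆ S := by
    rintro z ⟨hzc, hzD⟩
    by_cases hzy : z = y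
    · exfalso
      -- near y the Green function is positive
      have hb : Tendsto (fun z => h' z y - (1 / (2 * Real.pi)) * Real.log ‖z - y‖) (𝓝[≠] y) atTop := by
        have h1 : Tendsto (fun z => h' z y) (𝓝[≠] y) (𝓝 (h' y y)) :=
          (hcy.continuousAt (hDo.mem_nhds hy)).tendsto.mono_left nhdsWithin_le_nhds
        have h2 : Tendsto (fun z : ℂ => Real.log ‖z - y‖) (𝓝[≠] y) atBot := by
          apply Real.tendsto_log_nhdsGT_zero.comp
          rw [tendsto_nhdsWithin_iff]
          constructor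
          · have h3 : Tendsto (fun z : ℂ => ‖z - y‖) (𝓝 y) (𝓝 ‖y - y‖) :=
              (continuous_id.sub continuous_const).norm.tendsto y
            rw [sub_self, norm_zero] at h3
            exact h3.mono_left nhdsWithin_le_nhds
          · filter_upwards [self_mem_nhdsWithin] with z hz
            exact norm_pos_iff.2 (sub_ne_zero.2 hz)
        have h3 : Tendsto (fun z : ℂ => -((1 / (2 * Real.pi)) * Real.log ‖z - y‖)) (𝓝[≠] y) atTop := by
          apply tendsto_neg_atBot_atTop.comp
          exact h2.const_mul_atBot (by positivity)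
        simpa [sub_eq_add_neg] using h1.add_atTop h3
      have h1 : ∀ᶠ z in 𝓝[≠] y, z ∉ S := by
        have h2 := hb.eventually_gt_atTop 0
        have h3 : ∀ᶠ z in 𝓝[≠] y, z ∈ D := nhdsWithin_le_nhds (hDo.mem_nhds hy)
        filter_upwards [h2, h3, self_mem_nhdsWithin] with z hz hzD hzy hzS
        rw [← hgeq z ⟨hzD, hzy⟩, hzS.2] at hz
        exact lt_irrefl _ hz
      have h2 : ∀ᶠ z in 𝓝 y, z ∉ S := by
        rw [eventually_nhdsWithin_iff] at h1
        filter_upwards [h1] with z hz
        by_cases hzy' : z = y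
        · rw [hzy']; exact fun h => h.1.2 rfl
        · exact hz hzy'
      rw [hzy, mem_closure_iff_frequently] at hzc
      exact hzc h2
    · refine ⟨⟨hzD, hzy⟩, ?_⟩
      have hzV : z ∈ D \ {y} := ⟨hzD, hzy⟩
      have hct : ContinuousAt (fun z => h' z y - (1 / (2 * Real.pi)) * Real.log ‖z - y‖) z :=
        hharm.continuousOn.continuousAt (hV.mem_nhds hzV)
      rw [hgeq z hzV]
      by_contra hne
      have h1 : ∀ᶠ w in 𝓝 z, h' w y - (1 / (2 * Real.pi)) * Real.log ‖w - y‖ ≠ 0 :=
        hct.eventually_ne hne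
      rw [mem_closure_iff_frequently] at hzc
      apply hzc
      filter_upwards [h1] with w hw hwS
      apply hw
      rw [← hgeq w hwS.1, hwS.2]
  have hDS : D ⊆ S := hpc.subset_of_closure_inter_subset hSo ⟨x, hx, ⟨hx, hxy⟩, h.symm⟩ hcl
  exact (hDS hy).1.2 rfl

end H6
end LEP
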