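import Mathlib

set_option autoImplicit false

open Complex Metric Set Filter Topology

namespace Pool.Agent.Helper6.LE

/-- open star-shaped sets are simply connected -/
theorem star_sc {U : Set ℂ} (hU : StarConvex ℝ 0 U) (h0 : (0:ℂ) ∈ U) : IsSimplyConnected U := by
  have : ContractibleSpace U := hU.contractibleSpace ⟨0, h0⟩
  exact SimplyConnectedSpace.ofContractible U

theorem lip_of_bound {U : Set ℂ} {f : ℂ → ℂ} (hf : DifferentiableOn ℂ f U)
    (hb : ∀ z ∈ U, ‖f z‖ ≤ 1) {z₀ : ℂ} {r : ℝ} (hr : 0 < r) (hs : closedBall z₀ (2 * r) ⊆ U)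
    (hU : IsOpen U) {z w : ℂ} (hz : z ∈ ball z₀ r) (hw : w ∈ ball z₀ r) :
    ‖f z - f w‖ ≤ 1 / r * ‖z - w‖ := by
  have key : ∀ x ∈ ball z₀ r, ‖deriv f x‖ ≤ 1 / r := by
    intro x hx
    have hsub : closedBall x r ⊆ U := by
      intro y hy
      apply hs
      rw [mem_closedBall] at hy ⊢
      rw [mem_ball] at hx
      calc dist y z₀ ≤ dist y x + dist x z₀ := dist_triangle _ _ _
        _ ≤ 2 * r := by linarith
    apply Complex.norm_deriv_le_of_forall_mem_sphere_norm_le hr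
    · have : DifferentiableOn ℂ f (closure (ball x r)) := by
        apply hf.mono
        exact (closure_ball_subset_closedBall).trans hsub
      exact this.diffContOnCl
    · intro y hy
      exact hb y (hsub (sphere_subset_closedBall hy))
  refine Convex.norm_image_sub_le_of_norm_deriv_le (s := ball z₀ r) ?_ key (convex_ball _ _) hw hz
  intro x hx
  apply (hf x ?_).differentiableAt (hU.mem_nhds ?_)
  all_goals
    apply hs
    apply ball_subset_closedBall
    exact ball_subset_ball (by linarith) hx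

/-- Montel, ultrafilter form -/
theorem montel {U : Set ℂ} (hU : IsOpen U) (F : ℕ → ℂ → ℂ) (hF : ∀ n, DifferentiableOn ℂ (F n) U)
    (hb : ∀ n, ∀ z ∈ U, ‖F n z‖ ≤ 1) :
    ∃ g : ℂ → ℂ, TendstoLocallyUniformlyOn F g (hyperfilter ℕ : Filter ℕ) U := by
  have hex : ∀ z ∈ U, ∃ y, Tendsto (fun n => F n z) (hyperfilter ℕ : Filter ℕ) (𝓝 y) := by
    intro z hz
    have hc : IsCompact (closedBall (0:ℂ) 1) := isCompact_closedBall _ _
    have := hc.ultrafilter_le_nhds ((hyperfilter ℕ).map (fun n => F n z)) (by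
      rw [le_principal_iff]
      rw [Ultrafilter.mem_coe, Ultrafilter.mem_map]
      apply Filter.univ_mem'
      intro n
      simpa using hb n z hz)
    obtain ⟨y, -, hy⟩ := this
    exact ⟨y, hy⟩
  choose! g hg using hex
  refine ⟨g, ?_⟩
  rw [Metric.tendstoLocallyUniformlyOn_iff]
  intro ε hε z₀ hz₀
  obtain ⟨r, hr, hs⟩ : ∃ r > 0, closedBall z₀ (2 * r) ⊆ U := by
    obtain ⟨ρ, hρ, h⟩ := Metric.isOpen_iff.1 hU z₀ hz₀
    exact ⟨ρ / 4, by positivity, (closedBall_subset_ball (by linarith)).trans h⟩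
  have hLip : ∀ n, ∀ z ∈ ball z₀ r, ‖F n z - F n z₀‖ ≤ 1 / r * ‖z - z₀‖ := fun n z hz =>
    lip_of_bound (hF n) (hb n) hr hs hU hz (mem_ball_self hr)
  have hLg : ∀ z ∈ ball z₀ r, ‖g z - g z₀‖ ≤ 1 / r * ‖z - z₀‖ := by
    intro z hz
    have hzU : z ∈ U := hs (ball_subset_closedBall (ball_subset_ball (by linarith) hz))
    have h1 := ((hg z hzU).sub (hg z₀ hz₀)).norm
    exact le_of_tendsto h1 (Eventually.of_forall (fun n => hLip n z hz))
  set δ := min r (r * ε / 3) with hδ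
  have hδ0 : 0 < δ := lt_min hr (by positivity)
  refine ⟨ball z₀ δ, mem_nhdsWithin_of_mem_nhds (ball_mem_nhds _ hδ0), ?_⟩
  have h0 := Metric.tendsto_nhds.1 (hg z₀ hz₀) (ε / 3) (by positivity)
  filter_upwards [h0] with n hn z hz
  have hz1 : z ∈ ball z₀ r := ball_subset_ball (min_le_left _ _) hz
  have hz2 : 1 / r * ‖z - z₀‖ < ε / 3 := by
    have : ‖z - z₀‖ < r * ε / 3 := by
      rw [← dist_eq_norm]
      exact lt_of_lt_of_le hz (min_le_right _ _)
    calc 1 / r * ‖z - z₀‖ < 1 / r * (r * ε / 3) := by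
          apply mul_lt_mul_of_pos_left this (by positivity)
      _ = ε / 3 := by field_simp
  rw [dist_eq_norm]
  rw [dist_eq_norm] at hn
  calc ‖g z - F n z‖ = ‖(g z - g z₀) - (F n z₀ - g z₀) - (F n z - F n z₀)‖ := by congr 1; ring
    _ ≤ ‖g z - g z₀‖ + ‖F n z₀ - g z₀‖ + ‖F n z - F n z₀‖ := by
        refine (norm_sub_le _ _).trans ?_
        gcongr
        exact norm_sub_le _ _
    _ < ε / 3 + ε / 3 + ε / 3 := by
        have a1 := hLg z hz1
        have a2 := hLip n z hz1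
        linarith
    _ = ε := by ring

/-- Hurwitz: a locally uniform limit of nonvanishing holomorphic functions does not vanish at a point
near which it is not identically zero. -/
theorem hurwitz_zero {V : Set ℂ} (hV : IsOpen V) {ι : Type*} {l : Filter ι} [l.NeBot]
    (F : ι → ℂ → ℂ) (g : ℂ → ℂ) (hF : ∀ n, DifferentiableOn ℂ (F n) V)
    (hnv : ∀ n, ∀ z ∈ V, F n z ≠ 0) (hg : TendstoLocallyUniformlyOn F g l V) {b : ℂ} (hb : b ∈ V)
    (hiso : ∀ᶠ z in 𝓝[≠] b, g z ≠ 0) : g b ≠ 0 := by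
  have hgd : DifferentiableOn ℂ g V := hg.differentiableOn (Eventually.of_forall hF) hV
  intro hgb
  obtain ⟨r, hr, hrU, hrz⟩ : ∃ r > 0, closedBall b r ⊆ V ∧ ∀ z ∈ sphere b r, g z ≠ 0 := by
    rw [eventually_nhdsWithin_iff, Metric.eventually_nhds_iff] at hiso
    obtain ⟨ρ₁, hρ₁, h1⟩ := hiso
    obtain ⟨ρ₂, hρ₂, h2⟩ := Metric.isOpen_iff.1 hV b hb
    refine ⟨min (ρ₁ / 2) (ρ₂ / 2), by positivity, ?_, ?_⟩
    · refine (closedBall_subset_ball ?_).trans h2
      calc _ ≤ ρ₂ / 2 := min_le_right _ _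
        _ < ρ₂ := by linarith
    · intro z hz
      rw [mem_sphere] at hz
      apply h1
      · rw [hz]
        calc _ ≤ ρ₁ / 2 := min_le_left _ _
          _ < ρ₁ := by linarith
      · intro hzb
        simp only [mem_singleton_iff] at hzb
        rw [hzb, dist_self] at hz
        have : 0 < min (ρ₁ / 2) (ρ₂ / 2) := by positivity
        linarith
  have hcs : IsCompact (sphere b r) := isCompact_sphere _ _
  have hne' : (sphere b r).Nonempty := NormedSpace.sphere_nonempty.2 hr.le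
  have hcont : ContinuousOn (fun z => ‖g z‖) (sphere b r) :=
    (hgd.continuousOn.mono (sphere_subset_closedBall.trans hrU)).norm
  obtain ⟨zm, hzm, hmin⟩ := hcs.exists_isMinOn hne' hcont
  set m := ‖g zm‖ with hm
  have hm0 : 0 < m := norm_pos_iff.2 (hrz zm hzm)
  have hK : TendstoUniformlyOn F g l (closedBall b r) :=
    (tendstoLocallyUniformlyOn_iff_forall_isCompact hV).1 hg (closedBall b r) hrU
      (isCompact_closedBall _ _)
  rw [Metric.tendstoUniformlyOn_iff] at hK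
  obtain ⟨n, hn⟩ := (hK (m / 4) (by positivity)).exists
  have hnU : ∀ z ∈ closedBall b r, ‖g z - F n z‖ < m / 4 := by
    intro z hz
    rw [← dist_eq_norm]
    exact hn z hz
  have hDC : DiffContOnCl ℂ (fun z => (F n z)⁻¹) (ball b r) := by
    apply DifferentiableOn.diffContOnCl
    apply DifferentiableOn.mono (t := closedBall b r) _ closure_ball_subset_closedBall
    apply DifferentiableOn.inv
    · exact (hF n).mono hrU
    · exact fun z hz => hnv n z (hrU hz)
  have hbd : ‖(F n b)⁻¹‖ ≤ (m / 2)⁻¹ := by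
    refine Complex.norm_le_of_forall_mem_frontier_norm_le (U := ball b r) isBounded_ball hDC
      (C := (m / 2)⁻¹) (z := b) (fun z hz => ?_) (subset_closure (mem_ball_self hr))
    rw [frontier_ball _ hr.ne'] at hz
    rw [norm_inv]
    apply inv_anti₀ (by positivity)
    have h1 : m ≤ ‖g z‖ := hmin hz
    have h2 := hnU z (sphere_subset_closedBall hz)
    have h3 : ‖g z‖ ≤ ‖F n z‖ + ‖g z - F n z‖ := by
      calc ‖g z‖ = ‖F n z + (g z - F n z)‖ := by congr 1; ring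
        _ ≤ _ := norm_add_le _ _
    linarith
  have hb1 : ‖F n b‖ < m / 4 := by
    have := hnU b (mem_closedBall_self hr.le)
    rw [hgb, zero_sub, norm_neg] at this
    exact this
  rw [norm_inv] at hbd
  have hpos : 0 < ‖F n b‖ := norm_pos_iff.2 (hnv n b hb)
  have := (inv_le_inv₀ hpos (by positivity)).1 hbd
  linarith

theorem eventually_ne_of_deriv {U : Set ℂ} (hU : IsOpen U) (hpc : IsPreconnected U) {g : ℂ → ℂ}
    (hga : AnalyticOnNhd ℂ g U) (hnc : ∃ z ∈ U, deriv g z ≠ 0) (c : ℂ) {b : ℂ} (hb : b ∈ U) :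
    ∀ᶠ z in 𝓝[≠] b, g z - c ≠ 0 := by
  have hGa : AnalyticOnNhd ℂ (fun z => g z - c) U := hga.sub analyticOnNhd_const
  rcases (hGa b hb).eventually_eq_zero_or_eventually_ne_zero with h | h
  · exfalso
    have h2 : EqOn (fun z => g z - c) 0 U :=
      hGa.eqOn_zero_of_preconnected_of_eventuallyEq_zero hpc hb h
    obtain ⟨z, hz, hd⟩ := hnc
    apply hd
    have : g =ᶠ[𝓝 z] fun _ => c := by
      filter_upwards [hU.mem_nhds hz] with w hw
      have := h2 hw
      simpa [sub_eq_zero] using this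
    rw [this.deriv_eq]; simp
  · exact h

/-- Hurwitz for injectivity -/
theorem hurwitz_inj {U : Set ℂ} (hU : IsOpen U) (hpc : IsPreconnected U) {ι : Type*} {l : Filter ι} [l.NeBot]
    (F : ι → ℂ → ℂ) (g : ℂ → ℂ) (hF : ∀ n, DifferentiableOn ℂ (F n) U) (hinj : ∀ n, InjOn (F n) U)
    (hg : TendstoLocallyUniformlyOn F g l U) (hnc : ∃ z ∈ U, deriv g z ≠ 0) : InjOn g U := by
  have hgd : DifferentiableOn ℂ g U := hg.differentiableOn (Eventually.of_forall hF) hU
  have hga : AnalyticOnNhd ℂ g U := hgd.analyticOnNhd hU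
  intro a ha b hb hab
  by_contra hne
  have hV : IsOpen (U \ {a}) := hU.sdiff isClosed_singleton
  have := hurwitz_zero hV (fun n z => F n z - F n a) (fun z => g z - g a)
    (fun n => ((hF n).mono sdiff_subset).sub (differentiableOn_const _))
    (fun n z hz h0 => hz.2 (by
      rw [sub_eq_zero] at h0
      exact hinj n hz.1 ha h0))
    (by
      have h1 : TendstoLocallyUniformlyOn F g l (U \ {a}) := hg.mono sdiff_subset
      have h2 : Tendsto (fun n => F n a) l (𝓝 (g a)) := hg.tendsto_at ha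
      rw [Metric.tendstoLocallyUniformlyOn_iff] at h1 ⊢
      intro ε hε z hz
      obtain ⟨t, ht, h3⟩ := h1 (ε / 2) (by positivity) z hz
      refine ⟨t, ht, ?_⟩
      have h4 := Metric.tendsto_nhds.1 h2 (ε / 2) (by positivity)
      filter_upwards [h3, h4] with n hn1 hn2 y hy
      have h5 := hn1 y hy
      rw [dist_eq_norm] at h5 hn2 ⊢
      calc ‖g y - g a - (F n y - F n a)‖ = ‖(g y - F n y) + (F n a - g a)‖ := by congr 1; ring
        _ ≤ ‖g y - F n y‖ + ‖F n a - g a‖ := norm_add_le _ _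
        _ < ε := by linarith)
    (b := b) ⟨hb, fun h => hne h.symm⟩ (eventually_ne_of_deriv hU hpc hga hnc (g a) hb)
  exact this (by rw [hab, sub_self])

/-- Hurwitz for the derivative -/
theorem hurwitz_deriv {U : Set ℂ} (hU : IsOpen U) (hpc : IsPreconnected U) {ι : Type*} {l : Filter ι} [l.NeBot]
    (F : ι → ℂ → ℂ) (g : ℂ → ℂ) (hF : ∀ n, DifferentiableOn ℂ (F n) U)
    (hd : ∀ n, ∀ z ∈ U, deriv (F n) z ≠ 0)
    (hg : TendstoLocallyUniformlyOn F g l U) (hnc : ∃ z ∈ U, deriv g z ≠ 0) :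
    ∀ z ∈ U, deriv g z ≠ 0 := by
  have hgd : DifferentiableOn ℂ g U := hg.differentiableOn (Eventually.of_forall hF) hU
  have hga : AnalyticOnNhd ℂ g U := hgd.analyticOnNhd hU
  have hda : AnalyticOnNhd ℂ (deriv g) U := hga.deriv
  intro b hb
  refine hurwitz_zero hU (fun n => deriv (F n)) (deriv g) (fun n => ((hF n).deriv hU)) hd
    (hg.deriv (Eventually.of_forall hF) hU) hb ?_
  rcases (hda b hb).eventually_eq_zero_or_eventually_ne_zero with h | h
  · exfalso
    have h2 : EqOn (deriv g) 0 U :=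
      hda.eqOn_zero_of_preconnected_of_eventuallyEq_zero hpc hb h
    obtain ⟨z, hz, hd⟩ := hnc
    exact hd (h2 hz)
  · exact h

/-- disc automorphism -/
noncomputable def mob (w z : ℂ) : ℂ := (z - w) / (1 - (starRingEnd ℂ) w * z)

theorem mob_den {w z : ℂ} (hw : ‖w‖ < 1) (hz : ‖z‖ < 1) : 1 - (starRingEnd ℂ) w * z ≠ 0 := by
  intro h
  have h1 : ‖(starRingEnd ℂ) w * z‖ < 1 := by
    rw [norm_mul, RCLike.norm_conj]
    calc ‖w‖ * ‖z‖ ≤ ‖w‖ * 1 := by gcongr
      _ < 1 := by linarith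
  have h2 : (starRingEnd ℂ) w * z = 1 := (sub_eq_zero.1 h).symm
  rw [h2] at h1
  simp at h1

theorem mob_norm {w z : ℂ} (hw : ‖w‖ < 1) (hz : ‖z‖ < 1) : ‖mob w z‖ < 1 := by
  have hd := mob_den hw hz
  rw [mob, norm_div, div_lt_one (norm_pos_iff.2 hd)]
  have h1 : ‖z - w‖ ^ 2 < ‖1 - (starRingEnd ℂ) w * z‖ ^ 2 := by
    rw [← Complex.normSq_eq_norm_sq, ← Complex.normSq_eq_norm_sq]
    have hw2 : w.re * w.re + w.im * w.im < 1 := by
      have := Complex.normSq_eq_norm_sq w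
      rw [Complex.normSq_apply] at this
      rw [this]
      nlinarith [norm_nonneg w]
    have hz2 : z.re * z.re + z.im * z.im < 1 := by
      have := Complex.normSq_eq_norm_sq z
      rw [Complex.normSq_apply] at this
      rw [this]
      nlinarith [norm_nonneg z]
    rw [Complex.normSq_apply, Complex.normSq_apply]
    simp only [sub_re, sub_im, mul_re, mul_im, conj_re, conj_im, one_re, one_im]
    nlinarith [mul_pos (sub_pos.2 hw2) (sub_pos.2 hz2)]
  exact lt_of_pow_lt_pow_left₀ 2 (norm_nonneg _) h1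

theorem mob_inj {w z z' : ℂ} (hw : ‖w‖ < 1) (hz : ‖z‖ < 1) (hz' : ‖z'‖ < 1)
    (h : mob w z = mob w z') : z = z' := by
  rw [mob, mob, div_eq_div_iff (mob_den hw hz) (mob_den hw hz')] at h
  have h1 : (z - z') * (1 - w * (starRingEnd ℂ) w) = 0 := by linear_combination h
  rcases mul_eq_zero.1 h1 with h2 | h2
  · exact sub_eq_zero.1 h2
  · exfalso
    have h3 : w * (starRingEnd ℂ) w = 1 := (sub_eq_zero.1 h2).symm
    rw [Complex.mul_conj, Complex.normSq_eq_norm_sq] at h3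
    have h4 : ‖w‖ ^ 2 = 1 := by exact_mod_cast h3
    nlinarith [norm_nonneg w]

theorem mob_zero_iff {w z : ℂ} (hw : ‖w‖ < 1) (hz : ‖z‖ < 1) : mob w z = 0 ↔ z = w := by
  rw [mob, div_eq_zero_iff]
  constructor
  · rintro (h | h)
    · exact sub_eq_zero.1 h
    · exact absurd h (mob_den hw hz)
  · intro h; left; rw [h, sub_self]

theorem mob_hasDerivAt {w z : ℂ} (hw : ‖w‖ < 1) (hz : ‖z‖ < 1) :
    HasDerivAt (mob w) ((1 - (‖w‖ ^ 2 : ℝ)) / (1 - (starRingEnd ℂ) w * z) ^ 2) z := by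
  have h1 : HasDerivAt (fun z : ℂ => z - w) 1 z := (hasDerivAt_id z).sub_const w
  have h2 : HasDerivAt (fun z : ℂ => 1 - (starRingEnd ℂ) w * z) (-((starRingEnd ℂ) w * 1)) z :=
    ((hasDerivAt_id z).const_mul _).const_sub 1
  have h3 := h1.div h2 (mob_den hw hz)
  have h4 : (1 * (1 - (starRingEnd ℂ) w * z) - (z - w) * -((starRingEnd ℂ) w * 1)) /
      (1 - (starRingEnd ℂ) w * z) ^ 2 = (1 - (‖w‖ ^ 2 : ℝ)) / (1 - (starRingEnd ℂ) w * z) ^ 2 := by
    congr 1
    have : ((‖w‖ ^ 2 : ℝ) : ℂ) = w * (starRingEnd ℂ) w := by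
      rw [Complex.mul_conj, Complex.normSq_eq_norm_sq]
    rw [this]; ring
  rw [← h4]
  exact h3

/-- the family of competitors -/
def Fam (U : Set ℂ) (f : ℂ → ℂ) : Prop :=
  DifferentiableOn ℂ f U ∧ MapsTo f U (ball 0 1) ∧ InjOn f U ∧ (∀ z ∈ U, deriv f z ≠ 0) ∧ f 0 = 0

/-- Koebe's step -/
theorem koebe {U : Set ℂ} (hU : IsOpen U) (hsc : IsSimplyConnected U) (h0 : (0:ℂ) ∈ U) {f : ℂ → ℂ}
    (hf : Fam U f) {w : ℂ} (hw : ‖w‖ < 1) (hwf : w ∉ f '' U) :
    ∃ g, Fam U g ∧ ‖deriv f 0‖ < ‖deriv g 0‖ := by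
  obtain ⟨hfd, hfm, hfi, hfn, hf0⟩ := hf
  have hfn1 : ∀ z ∈ U, ‖f z‖ < 1 := fun z hz => by simpa using hfm hz
  have hFd : ∀ z ∈ U, HasDerivAt (fun z => mob w (f z))
      ((1 - (‖w‖ ^ 2 : ℝ)) / (1 - (starRingEnd ℂ) w * f z) ^ 2 * deriv f z) z := by
    intro z hz
    exact (mob_hasDerivAt hw (hfn1 z hz)).comp z ((hfd z hz).differentiableAt (hU.mem_nhds hz)).hasDerivAt
  have hw0 : w ≠ 0 := by
    rintro rfl
    exact hwf ⟨0, h0, hf0⟩
  have hwp : 0 < ‖w‖ := norm_pos_iff.2 hw0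
  obtain ⟨h, hhc, hh⟩ := exists_continuousOn_pow_eq hsc hU (g := fun z => mob w (f z))
    (fun z hz => (hFd z hz).continuousAt.continuousWithinAt)
    (by
      rintro ⟨z, hz, h1⟩
      exact hwf ⟨z, hz, (mob_zero_iff hw (hfn1 z hz)).1 h1⟩) two_ne_zero
  have hmne : ∀ z ∈ U, mob w (f z) ≠ 0 := fun z hz h1 =>
    hwf ⟨z, hz, (mob_zero_iff hw (hfn1 z hz)).1 h1⟩
  have hhne : ∀ z ∈ U, h z ≠ 0 := by
    intro z hz h1
    apply hmne z hz
    rw [← hh z, h1]; simp
  have hhn : ∀ z ∈ U, ‖h z‖ < 1 := by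
    intro z hz
    have h1 : ‖h z‖ ^ 2 < 1 := by
      rw [← norm_pow, hh]
      exact mob_norm hw (hfn1 z hz)
    nlinarith [norm_nonneg (h z)]
  have hhd : ∀ z ∈ U, HasDerivAt h
      ((1 - (‖w‖ ^ 2 : ℝ)) / (1 - (starRingEnd ℂ) w * f z) ^ 2 * deriv f z / (2 * h z)) z := by
    intro z hz
    -- h is differentiable since h^2 is and h is continuous and nonzero
    have hca : ContinuousAt h z := hhc.continuousAt (hU.mem_nhds hz)
    have h1 := hFd z hz
    rw [hasDerivAt_iff_tendsto_slope] at h1 ⊢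
    have h2 : Tendsto (fun y => h y + h z) (𝓝[≠] z) (𝓝 (2 * h z)) := by
      have : Tendsto (fun y => h y + h z) (𝓝 z) (𝓝 (h z + h z)) := hca.tendsto.add tendsto_const_nhds
      rw [two_mul]
      exact this.mono_left nhdsWithin_le_nhds
    have h3 := h1.div h2 (mul_ne_zero two_ne_zero (hhne z hz))
    refine h3.congr' ?_
    have h4 : ∀ᶠ y in 𝓝[≠] z, h y + h z ≠ 0 :=
      h2.eventually_ne (mul_ne_zero two_ne_zero (hhne z hz))
    filter_upwards [h4, self_mem_nhdsWithin] with y hy hyz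
    simp only [mem_compl_iff, mem_singleton_iff] at hyz
    simp only [Pi.div_apply]
    rw [slope_def_field, slope_def_field, ← hh y, ← hh z]
    have hyz' : y - z ≠ 0 := sub_ne_zero.2 hyz
    field_simp
    ring
  set g : ℂ → ℂ := fun z => mob (h 0) (h z) with hg
  have hh0 : ‖h 0‖ < 1 := hhn 0 h0
  have hgd : ∀ z ∈ U, HasDerivAt g ((1 - (‖h 0‖ ^ 2 : ℝ)) / (1 - (starRingEnd ℂ) (h 0) * h z) ^ 2 *
      ((1 - (‖w‖ ^ 2 : ℝ)) / (1 - (starRingEnd ℂ) w * f z) ^ 2 * deriv f z / (2 * h z))) z := by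
    intro z hz
    exact (mob_hasDerivAt hh0 (hhn z hz)).comp z (hhd z hz)
  have c1 : ∀ v : ℂ, ‖v‖ < 1 → (1 - ((‖v‖ ^ 2 : ℝ) : ℂ)) ≠ 0 := by
    intro v hv h1
    have : (1 - ‖v‖ ^ 2 : ℝ) = 0 := by exact_mod_cast h1
    nlinarith [norm_nonneg v]
  refine ⟨g, ⟨fun z hz => (hgd z hz).differentiableAt.differentiableWithinAt, ?_, ?_, ?_, ?_⟩, ?_⟩
  · intro z hz
    simpa using mob_norm hh0 (hhn z hz)
  · intro z hz z' hz' hzz
    have h1 : h z = h z' := mob_inj hh0 (hhn z hz) (hhn z' hz') hzz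
    have h2 : mob w (f z) = mob w (f z') := by rw [← hh z, ← hh z', h1]
    exact hfi hz hz' (mob_inj hw (hfn1 z hz) (hfn1 z' hz') h2)
  · intro z hz
    rw [(hgd z hz).deriv]
    refine mul_ne_zero (div_ne_zero (c1 _ hh0) (pow_ne_zero _ (mob_den hh0 (hhn z hz)))) ?_
    refine div_ne_zero (mul_ne_zero (div_ne_zero (c1 _ hw) (pow_ne_zero _ (mob_den hw (hfn1 z hz)))) (hfn z hz)) ?_
    exact mul_ne_zero two_ne_zero (hhne z hz)
  · show mob (h 0) (h 0) = 0
    rw [mob_zero_iff hh0 hh0]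
  · rw [(hgd 0 h0).deriv]
    have hsq : ‖h 0‖ ^ 2 = ‖w‖ := by
      rw [← norm_pow, hh 0, hf0, mob]
      simp
    have hden : (1 - (starRingEnd ℂ) (h 0) * h 0) = ((1 - ‖h 0‖ ^ 2 : ℝ) : ℂ) := by
      push_cast
      rw [mul_comm, Complex.mul_conj, Complex.normSq_eq_norm_sq]
      push_cast; rfl
    rw [hden, hf0, mul_zero, sub_zero]
    have e1 : (1 - ((‖h 0‖ ^ 2 : ℝ) : ℂ)) = ((1 - ‖h 0‖ ^ 2 : ℝ) : ℂ) := by push_cast; rfl
    have e2 : (1 - ((‖w‖ ^ 2 : ℝ) : ℂ)) = ((1 - ‖w‖ ^ 2 : ℝ) : ℂ) := by push_cast; rfl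
    rw [e1, e2]
    simp only [norm_mul, norm_div, norm_pow, Complex.norm_real, Real.norm_eq_abs, one_pow, div_one,
      Complex.norm_ofNat, hsq]
    have hw1 : 0 < 1 - ‖w‖ := by linarith
    rw [abs_of_pos hw1, abs_of_pos (show 0 < 1 - ‖w‖ ^ 2 by nlinarith)]
    have hdp : 0 < ‖deriv f 0‖ := norm_pos_iff.2 (hfn 0 h0)
    set s := ‖h 0‖ with hs
    have hs0 : 0 < s := norm_pos_iff.2 (hhne 0 h0)
    have hs1 : s < 1 := hh0
    rw [← hsq] at hw1 ⊢
    have key : (1 - s ^ 2) / (1 - s ^ 2) ^ 2 * ((1 - (s ^ 2) ^ 2) * ‖deriv f 0‖ / (2 * s)) =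
        ‖deriv f 0‖ * ((1 + s ^ 2) / (2 * s)) := by
      field_simp
      ring
    rw [key]
    have h5 : 1 < (1 + s ^ 2) / (2 * s) := by
      rw [lt_div_iff₀ (by positivity)]
      nlinarith [sq_nonneg (1 - s), sq_pos_of_pos (sub_pos.2 hs1)]
    nlinarith

/-- **Riemann mapping theorem** for bounded simply connected open sets containing `0`. -/
theorem rmt {U : Set ℂ} (hU : IsOpen U) (hsc : IsSimplyConnected U) (hbd : Bornology.IsBounded U)
    (h0 : (0:ℂ) ∈ U) :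
    ∃ φ : ℂ → ℂ, DifferentiableOn ℂ φ U ∧ BijOn φ U (ball 0 1) ∧ φ 0 = 0 ∧
      ∀ z ∈ U, deriv φ z ≠ 0 := by
  have hpc : IsPreconnected U := hsc.isPathConnected.isConnected.isPreconnected
  -- the family is nonempty
  obtain ⟨R, hR0, hR⟩ : ∃ R : ℝ, 0 < R ∧ U ⊆ ball 0 R := by
    obtain ⟨R, hR⟩ := hbd.subset_ball 0
    exact ⟨max R 1, by positivity, hR.trans (ball_subset_ball (le_max_left _ _))⟩
  have hne : Fam U (fun z => z / R) := by
    have hRc : (R:ℂ) ≠ 0 := by exact_mod_cast hR0.ne'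
    refine ⟨?_, ?_, ?_, ?_, by simp⟩
    · exact (differentiable_id.div_const _).differentiableOn
    · intro z hz
      have := hR hz
      rw [mem_ball_zero_iff] at this ⊢
      rw [norm_div, Complex.norm_real, Real.norm_eq_abs, abs_of_pos hR0, div_lt_one hR0]
      exact this
    · intro a _ b _ hab
      simp only at hab
      field_simp at hab
      exact hab
    · intro z _
      simp [hRc]
  -- bound of the derivative
  obtain ⟨ρ, hρ, hρU⟩ := Metric.isOpen_iff.1 hU 0 h0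
  have hbound : ∀ f, Fam U f → ‖deriv f 0‖ ≤ 2 / ρ := by
    intro f hf
    have hsub : closedBall (0:ℂ) (ρ / 2) ⊆ U :=
      (closedBall_subset_ball (by linarith)).trans hρU
    have := Complex.norm_deriv_le_of_forall_mem_sphere_norm_le (c := (0:ℂ)) (R := ρ / 2) (C := 1)
      (f := f) (by positivity) (by
        apply DifferentiableOn.diffContOnCl
        exact hf.1.mono ((closure_ball_subset_closedBall).trans hsub))
      (fun z hz => by
        have := hf.2.1 (hsub (sphere_subset_closedBall hz))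
        rw [mem_ball_zero_iff] at this
        exact this.le)
    calc ‖deriv f 0‖ ≤ 1 / (ρ / 2) := this
      _ = 2 / ρ := by field_simp
  set S : Set ℝ := {x | ∃ f, Fam U f ∧ ‖deriv f 0‖ = x} with hS
  have hSne : S.Nonempty := ⟨_, _, hne, rfl⟩
  have hSb : BddAbove S := ⟨2 / ρ, by rintro x ⟨f, hf, rfl⟩; exact hbound f hf⟩
  obtain ⟨u, -, hu, huS⟩ := exists_seq_tendsto_sSup hSne hSb
  choose F hF hFu using huS
  obtain ⟨g, hg⟩ := montel hU F (fun n => (hF n).1) (fun n z hz => by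
    have := (hF n).2.1 hz
    rw [mem_ball_zero_iff] at this
    exact this.le)
  have hgd : DifferentiableOn ℂ g U := hg.differentiableOn (Eventually.of_forall (fun n => (hF n).1)) hU
  have hdg : ‖deriv g 0‖ = sSup S := by
    have h1 := (hg.deriv (Eventually.of_forall (fun n => (hF n).1)) hU).tendsto_at h0
    have h2 : Tendsto (fun n => ‖deriv (F n) 0‖) (hyperfilter ℕ : Filter ℕ) (𝓝 ‖deriv g 0‖) := h1.norm
    have h3 : Tendsto (fun n => ‖deriv (F n) 0‖) (hyperfilter ℕ : Filter ℕ) (𝓝 (sSup S)) := by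
      have : (fun n => ‖deriv (F n) 0‖) = u := by ext n; exact hFu n
      rw [this]
      exact hu.mono_left (Nat.hyperfilter_le_atTop)
    exact tendsto_nhds_unique h2 h3
  have hpos : 0 < sSup S := by
    refine lt_of_lt_of_le ?_ (le_csSup hSb ⟨_, hne, rfl⟩)
    exact norm_pos_iff.2 (hne.2.2.2.1 0 h0)
  have hdg0 : deriv g 0 ≠ 0 := by
    rw [← norm_pos_iff, hdg]; exact hpos
  have hinj : InjOn g U := hurwitz_inj hU hpc F g (fun n => (hF n).1) (fun n => (hF n).2.2.1) hg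
    ⟨0, h0, hdg0⟩
  have hder : ∀ z ∈ U, deriv g z ≠ 0 := hurwitz_deriv hU hpc F g (fun n => (hF n).1)
    (fun n => (hF n).2.2.2.1) hg ⟨0, h0, hdg0⟩
  have hg0 : g 0 = 0 := by
    have h1 := hg.tendsto_at h0
    have h2 : (fun n => F n 0) = fun _ => 0 := by ext n; exact (hF n).2.2.2.2
    rw [h2] at h1
    exact (tendsto_nhds_unique tendsto_const_nhds h1).symm
  have hle : ∀ z ∈ U, ‖g z‖ ≤ 1 := by
    intro z hz
    refine le_of_tendsto (hg.tendsto_at hz).norm (Eventually.of_forall (fun n => ?_))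
    have := (hF n).2.1 hz
    rw [mem_ball_zero_iff] at this
    exact this.le
  have hmaps : MapsTo g U (ball 0 1) := by
    intro z hz
    rw [mem_ball_zero_iff]
    rcases (hle z hz).lt_or_eq with h | h
    · exact h
    · exfalso
      -- maximum of the modulus in the interior
      have hmax : IsMaxOn (norm ∘ g) U z := by
        intro y hy
        simp only [mem_ofPred_eq, Function.comp_apply]
        rw [h]; exact hle y hy
      have := Complex.norm_eqOn_of_isPreconnected_of_isMaxOn hpc hU hgd hz hmax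
      have h5 := this h0
      simp only [Function.comp_apply, Function.const_apply] at h5
      rw [h, hg0, norm_zero] at h5
      exact zero_ne_one h5
  have hfam : Fam U g := ⟨hgd, hmaps, hinj, hder, hg0⟩
  refine ⟨g, hgd, ⟨hmaps, hinj, ?_⟩, hg0, hder⟩
  intro w hw
  by_contra hwf
  rw [mem_ball_zero_iff] at hw
  obtain ⟨G, hG, hlt⟩ := koebe hU hsc h0 hfam hw hwf
  have := le_csSup hSb ⟨G, hG, rfl⟩
  rw [hdg] at hlt
  linarith

/-- Riemann mapping theorem with the holomorphic inverse -/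
theorem rmt_inv {U : Set ℂ} (hU : IsOpen U) (hsc : IsSimplyConnected U) (hbd : Bornology.IsBounded U)
    (h0 : (0:ℂ) ∈ U) :
    ∃ φ ψ : ℂ → ℂ, DifferentiableOn ℂ φ U ∧ DifferentiableOn ℂ ψ (ball 0 1) ∧
      BijOn φ U (ball 0 1) ∧ BijOn ψ (ball 0 1) U ∧ InvOn ψ φ U (ball 0 1) ∧ φ 0 = 0 ∧ ψ 0 = 0 ∧
      (∀ z ∈ U, deriv φ z ≠ 0) ∧ (∀ z ∈ ball (0:ℂ) 1, deriv ψ z ≠ 0) := by
  obtain ⟨φ, hφ, hbij, hφ0, hd⟩ := rmt hU hsc hbd h0
  have hpc : IsPreconnected U := hsc.isPathConnected.isConnected.isPreconnected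
  set ψ := Function.invFunOn φ U with hψ
  have hinv : InvOn ψ φ U (ball 0 1) := hbij.invOn_invFunOn
  have hbij2 : BijOn ψ (ball 0 1) U := hbij.symm hinv.symm
  have hstrict : ∀ z ∈ U, HasStrictDerivAt φ (deriv φ z) z := by
    intro z hz
    have := (hφ.analyticOnNhd hU z hz).hasStrictDerivAt
    exact this
  have hderψ : ∀ y ∈ ball (0:ℂ) 1, HasDerivAt ψ (deriv φ (ψ y))⁻¹ y := by
    intro y hy
    have hz : ψ y ∈ U := hbij2.mapsTo hy
    have hφψ : φ (ψ y) = y := hinv.2 hy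
    have hs := hstrict _ hz
    have hev : ∀ᶠ x in 𝓝 (φ (ψ y)), hs.localInverse φ _ _ (hd _ hz) x = ψ x := by
      have e1 := hs.to_localInverse (hd _ hz)
      have e2 : Tendsto (hs.localInverse φ _ _ (hd _ hz)) (𝓝 (φ (ψ y))) (𝓝 (ψ y)) := by
        have e3 := e1.hasDerivAt.continuousAt.tendsto
        have e4 : hs.localInverse φ _ _ (hd _ hz) (φ (ψ y)) = ψ y :=
          HasStrictFDerivAt.localInverse_apply_image (hs.hasStrictFDerivAt_equiv (hd _ hz))
        rw [e4] at e3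
        exact e3
      have e5 : ∀ᶠ x in 𝓝 (φ (ψ y)), hs.localInverse φ _ _ (hd _ hz) x ∈ U :=
        e2.eventually (hU.mem_nhds hz)
      have e6 : ∀ᶠ x in 𝓝 (φ (ψ y)), φ (hs.localInverse φ _ _ (hd _ hz) x) = x :=
        HasStrictFDerivAt.eventually_right_inverse (hs.hasStrictFDerivAt_equiv (hd _ hz))
      filter_upwards [e5, e6] with x h1 h2
      rw [← hinv.1 h1, h2]
    have := (hs.to_localInverse (hd _ hz)).hasDerivAt.congr_of_eventuallyEq
      (hev.mono (fun x hx => hx.symm))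
    rw [hφψ] at this
    exact this
  refine ⟨φ, ψ, hφ, fun y hy => (hderψ y hy).differentiableAt.differentiableWithinAt, hbij, hbij2,
    hinv, hφ0, ?_, hd, ?_⟩
  · have := hinv.1 h0
    rwa [hφ0] at this
  · intro y hy
    rw [(hderψ y hy).deriv]
    exact inv_ne_zero (hd _ (hbij2.mapsTo hy))

/-- form used by helper14's statement -/
theorem rmt_star {U : Set ℂ} (hU : IsOpen U) (hbd : Bornology.IsBounded U) (h0 : (0:ℂ) ∈ U)
    (hs : StarConvex ℝ 0 U) :
    ∃ φ : ℂ → ℂ, DifferentiableOn ℂ φ U ∧ InjOn φ U ∧ φ '' U = ball 0 1 ∧ φ 0 = 0 := by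
  obtain ⟨φ, h1, h2, h3, -⟩ := rmt hU (star_sc hs h0) hbd h0
  exact ⟨φ, h1, h2.injOn, h2.image_eq, h3⟩

end Pool.Agent.Helper6.LE
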