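import Pool.Agent.Helper14.LE.Stmts

set_option autoImplicit false

open MeasureTheory Set Filter Topology InnerProductSpace Laplacian Metric

noncomputable section

namespace LEP
namespace H6

/-- a harmonic function with a local maximum is locally constant -/
theorem harm_localMax {V : Set ℂ} {f : ℂ → ℝ} (hV : IsOpen V) (hf : HarmonicOnNhd f V) {x : ℂ}
    (hx : x ∈ V) (hmax : IsLocalMax f x) : ∀ᶠ y in 𝓝 x, f y = f x := by
  obtain ⟨r, hr, hrV⟩ := Metric.isOpen_iff.1 hV x hx
  obtain ⟨F, hF, hre⟩ := InnerProductSpace.HarmonicOnNhd.exists_analyticOnNhd_ball_re_eq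
    (hf.mono hrV)
  have hb : ball x r ∈ 𝓝 x := ball_mem_nhds x hr
  have hG : ∀ᶠ z in 𝓝 x, DifferentiableAt ℂ (fun z => Complex.exp (F z)) z := by
    filter_upwards [hb] with z hz
    exact (hF z hz).differentiableAt.cexp
  have hn : ∀ z ∈ ball x r, ‖Complex.exp (F z)‖ = Real.exp (f z) := by
    intro z hz
    rw [Complex.norm_exp]
    congr 1
    exact hre hz
  have hlm : IsLocalMax (norm ∘ fun z => Complex.exp (F z)) x := by
    filter_upwards [hmax, hb] with z hz hzb
    simp only [Function.comp_apply]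
    rw [hn z hzb, hn x (mem_ball_self hr)]
    exact Real.exp_le_exp.2 hz
  have := Complex.norm_eventually_eq_of_isLocalMax hG hlm
  filter_upwards [this, hb] with z hz hzb
  rw [hn z hzb, hn x (mem_ball_self hr)] at hz
  exact Real.exp_injective hz

theorem st_MP : ST_MP := by
  intro V f hV hf h x₀ hx₀
  by_contra hpos
  push Not at hpos
  obtain ⟨K, hKV, hK, hKf⟩ := h (f x₀ / 2) (by positivity)
  have hx₀K : x₀ ∈ K := by
    by_contra hn
    have := hKf x₀ ⟨hx₀, hn⟩
    linarith
  have hcont : ContinuousOn f K := hf.continuousOn.mono hKV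
  obtain ⟨x₁, hx₁, hmax⟩ := hK.exists_isMaxOn ⟨x₀, hx₀K⟩ hcont
  have hM : f x₀ ≤ f x₁ := hmax hx₀K
  have hle : ∀ y ∈ V, f y ≤ f x₁ := by
    intro y hy
    by_cases hyK : y ∈ K
    · exact hmax hyK
    · have := hKf y ⟨hy, hyK⟩
      linarith
  set S : Set ℂ := K ∩ f ⁻¹' {f x₁} with hS
  have hSc : IsClosed S := hcont.preimage_isClosed_of_isClosed hK.isClosed isClosed_singleton
  have hSK : IsCompact S := hK.of_isClosed_subset hSc inter_subset_left
  have hSo : IsOpen S := by
    rw [isOpen_iff_mem_nhds]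
    intro y hy
    have hyV : y ∈ V := hKV hy.1
    have hyM : f y = f x₁ := hy.2
    have hlm : IsLocalMax f y := by
      filter_upwards [hV.mem_nhds hyV] with z hz
      rw [hyM]; exact hle z hz
    filter_upwards [harm_localMax hV hf hyV hlm, hV.mem_nhds hyV] with z hz hzV
    refine ⟨?_, ?_⟩
    · by_contra hn
      have := hKf z ⟨hzV, hn⟩
      rw [hz, hyM] at this
      linarith
    · show f z = f x₁
      rw [hz, hyM]
  have hne : S.Nonempty := ⟨x₁, hx₁, rfl⟩
  have huniv : S = univ := IsClopen.eq_univ ⟨hSc, hSo⟩ hne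
  rw [huniv] at hSK
  exact NoncompactSpace.noncompact_univ hSK

theorem st_MPB : ST_MPB := by
  intro V f hV hbd hf h
  refine st_MP V f hV hf (fun ε hε => ?_)
  -- K = {x ∈ V | f x ≥ ε}
  refine ⟨{x | x ∈ V ∧ ε ≤ f x}, fun x hx => hx.1, ?_, ?_⟩
  · apply Metric.isCompact_of_isClosed_isBounded
    · rw [← isSeqClosed_iff_isClosed]
      intro u x hu hux
      have hxc : x ∈ closure V := mem_closure_of_tendsto hux (Eventually.of_forall (fun n => (hu n).1))
      by_cases hxV : x ∈ V
      · refine ⟨hxV, ?_⟩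
        have hc : ContinuousAt f x := hf.continuousOn.continuousAt (hV.mem_nhds hxV)
        exact ge_of_tendsto (hc.tendsto.comp hux) (Eventually.of_forall (fun n => (hu n).2))
      · exfalso
        have hfr : x ∈ frontier V := ⟨hxc, by rwa [hV.interior_eq]⟩
        have h1 := h x hfr ε hε
        have h2 : Tendsto u atTop (𝓝[V] x) :=
          tendsto_nhdsWithin_iff.2 ⟨hux, Eventually.of_forall (fun n => (hu n).1)⟩
        obtain ⟨n, hn⟩ := (h2.eventually h1).exists
        exact absurd (hu n).2 (not_le.2 hn)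
    · exact hbd.subset (fun x hx => hx.1)
  · intro x hx
    by_contra hn
    exact hx.2 ⟨hx.1, not_lt.1 hn⟩

end H6
end LEP
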