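import Mathlib

set_option autoImplicit false

open Complex Metric Set Filter Topology MeasureTheory InnerProductSpace Laplacian

namespace Pool.Agent.Helper6.LE

noncomputable section

/-- the unit vector of angle `θ` -/
def uv (θ : ℝ) : ℂ := (Real.cos θ : ℂ) + (Real.sin θ : ℂ) * Complex.I

theorem uv_norm (θ : ℝ) : ‖uv θ‖ = 1 := by
  have h : ‖uv θ‖ ^ 2 = 1 := by
    rw [← Complex.normSq_eq_norm_sq, Complex.normSq_apply, uv]
    simp only [add_re, add_im, mul_re, mul_im, ofReal_re, ofReal_im, I_re, I_im]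
    have := Real.sin_sq_add_cos_sq θ
    nlinarith
  nlinarith [norm_nonneg (uv θ), sq_nonneg (‖uv θ‖ - 1), sq_nonneg (‖uv θ‖ + 1)]

theorem uv_cont : Continuous uv := by
  unfold uv
  fun_prop

theorem ray_closed (θ : ℝ) : Topology.IsClosedEmbedding (fun r : ℝ => (r:ℂ) * uv θ) := by
  have hiso : Isometry (fun r : ℝ => (r:ℂ) * uv θ) := by
    apply Isometry.of_dist_eq
    intro a b
    rw [dist_eq_norm, dist_eq_norm, ← sub_mul, norm_mul, uv_norm, mul_one, ← ofReal_sub,
      Complex.norm_real]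
  exact hiso.isClosedEmbedding

theorem ray_integral {g : ℂ → ℝ} (hg : ContDiff ℝ 1 g) (hc : HasCompactSupport g) (θ : ℝ) :
    ∫ r in Ioi (0:ℝ), fderiv ℝ g ((r:ℂ) * uv θ) (uv θ) = - g 0 := by
  have hd : ∀ r : ℝ, HasDerivAt (fun r : ℝ => g ((r:ℂ) * uv θ))
      (fderiv ℝ g ((r:ℂ) * uv θ) (uv θ)) r := by
    intro r
    have h1 : HasDerivAt (fun r : ℝ => (r:ℂ) * uv θ) (uv θ) r := by
      have := (Complex.ofRealCLM.hasDerivAt (x := r)).mul_const (uv θ)
      simpa using this
    have h2 := (hg.differentiable one_ne_zero ((r:ℂ) * uv θ)).hasFDerivAt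
    exact h2.comp_hasDerivAt r h1
  have h3 : ContDiff ℝ 1 (fun r : ℝ => g ((r:ℂ) * uv θ)) := by
    apply hg.comp
    exact (Complex.ofRealCLM.contDiff).mul contDiff_const
  have h4 : HasCompactSupport (fun r : ℝ => g ((r:ℂ) * uv θ)) :=
    hc.comp_isClosedEmbedding (ray_closed θ)
  have h5 := h4.integral_Ioi_deriv_eq h3 0
  simp only [ofReal_zero, zero_mul] at h5
  rw [← h5]
  apply integral_congr_ae
  exact Eventually.of_forall (fun r => (hd r).deriv.symm)

/-- the fundamental solution of the planar Laplacian, gradient form -/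
theorem fund_grad {g : ℂ → ℝ} (hg : ContDiff ℝ 1 g) (hc : HasCompactSupport g) :
    ∫ x : ℂ, fderiv ℝ g x x / ‖x‖ ^ 2 = - (2 * Real.pi) * g 0 := by
  rw [← Complex.integral_comp_polarCoord_symm]
  have hcont : Continuous (fun p : ℝ × ℝ => fderiv ℝ g ((p.1:ℂ) * uv p.2) (uv p.2)) := by
    have h1 : Continuous (fun p : ℝ × ℝ => (p.1:ℂ) * uv p.2) :=
      (Complex.continuous_ofReal.comp continuous_fst).mul (uv_cont.comp continuous_snd)
    exact ((hg.continuous_fderiv one_ne_zero).comp h1).clm_apply (uv_cont.comp continuous_snd)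
  have e1 : ∫ p in polarCoord.target, p.1 • (fderiv ℝ g (Complex.polarCoord.symm p) (Complex.polarCoord.symm p) /
      ‖Complex.polarCoord.symm p‖ ^ 2) =
      ∫ p in Ioi (0:ℝ) ×ˢ Ioo (-Real.pi) Real.pi, fderiv ℝ g ((p.1:ℂ) * uv p.2) (uv p.2) := by
    apply setIntegral_congr_fun polarCoord.open_target.measurableSet
    intro p hp
    have hp1 : 0 < p.1 := hp.1
    simp only
    have h1 : Complex.polarCoord.symm p = (p.1:ℂ) * uv p.2 := by
      rw [Complex.polarCoord_symm_apply, uv]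
    rw [h1, norm_mul, uv_norm, mul_one, Complex.norm_real, Real.norm_eq_abs, abs_of_pos hp1]
    have h2 : (p.1:ℂ) * uv p.2 = p.1 • uv p.2 := by rw [Complex.real_smul]
    have h3 : fderiv ℝ g ((p.1:ℂ) * uv p.2) ((p.1:ℂ) * uv p.2) =
        p.1 * fderiv ℝ g ((p.1:ℂ) * uv p.2) (uv p.2) := by
      conv_lhs => rw [h2]
      rw [map_smul, smul_eq_mul, ← h2]
    rw [h3, smul_eq_mul]
    field_simp
  rw [e1]
  -- integrability
  obtain ⟨R, hR0, hR⟩ : ∃ R : ℝ, 0 < R ∧ ∀ x : ℂ, R < ‖x‖ → fderiv ℝ g x = 0 := by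
    obtain ⟨R, hR⟩ := (hc.fderiv (𝕜 := ℝ)).isBounded.subset_closedBall 0
    refine ⟨max R 1, by positivity, fun x hx => ?_⟩
    apply image_eq_zero_of_notMem_tsupport
    intro hx2
    have := hR hx2
    rw [mem_closedBall_zero_iff] at this
    have h2 : R ≤ max R 1 := le_max_left _ _
    linarith
  have hint : IntegrableOn (fun p : ℝ × ℝ => fderiv ℝ g ((p.1:ℂ) * uv p.2) (uv p.2))
      (Ioi (0:ℝ) ×ˢ Ioo (-Real.pi) Real.pi) := by
    have h1 : IntegrableOn (fun p : ℝ × ℝ => fderiv ℝ g ((p.1:ℂ) * uv p.2) (uv p.2))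
      (Icc (0:ℝ) R ×ˢ Icc (-Real.pi) Real.pi) :=
      hcont.continuousOn.integrableOn_compact (isCompact_Icc.prod isCompact_Icc)
    have h2 : IntegrableOn (fun p : ℝ × ℝ => fderiv ℝ g ((p.1:ℂ) * uv p.2) (uv p.2))
      (Ioi R ×ˢ Icc (-Real.pi) Real.pi) := by
      apply IntegrableOn.congr_fun (f := fun _ => (0:ℝ)) integrableOn_zero
      · intro p hp
        have hp1 : R < p.1 := hp.1
        simp only
        rw [hR]
        · simp
        · rw [norm_mul, uv_norm, mul_one, Complex.norm_real, Real.norm_eq_abs,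
            abs_of_pos (hR0.trans hp1)]
          exact hp1
      · exact (measurableSet_Ioi).prod measurableSet_Icc
    refine (h1.union h2).mono_set ?_
    intro p hp
    rcases le_or_gt p.1 R with h | h
    · left; exact ⟨⟨le_of_lt hp.1, h⟩, Ioo_subset_Icc_self hp.2⟩
    · right; exact ⟨h, Ioo_subset_Icc_self hp.2⟩
  rw [IntegrableOn, Measure.volume_eq_prod, ← Measure.prod_restrict] at hint
  rw [Measure.volume_eq_prod, ← Measure.prod_restrict, integral_prod_symm _ hint]
  simp_rw [ray_integral hg hc]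
  rw [setIntegral_const, smul_eq_mul]
  have : (volume : Measure ℝ).real (Ioo (-Real.pi) Real.pi) = 2 * Real.pi := by
    rw [Measure.real, Real.volume_Ioo, ENNReal.toReal_ofReal (by linarith [Real.pi_pos])]
    ring
  rw [this]; ring

/-! ### local integrability of `1/‖x‖` and `log ‖x‖` -/

theorem locInt_inv : LocallyIntegrable (fun x : ℂ => ‖x‖⁻¹) := by
  refine locallyIntegrable_of_norm_le_rpow (μ := volume) (C := 1) (α := 1) ?_ ?_ ?_ ?_
  · rw [Complex.finrank_real_complex]; norm_num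
  · rw [Complex.finrank_real_complex]; norm_num
  · refine Eventually.of_forall (fun x => ?_)
    rw [Real.rpow_neg_one, one_mul, norm_inv, norm_norm]
  · exact (measurable_norm.inv (α := ℂ)).aestronglyMeasurable

theorem abs_log_le {r : ℝ} (hr : 0 ≤ r) : |Real.log r| ≤ r + r⁻¹ := by
  rcases hr.eq_or_lt with h | h
  · rw [← h]; simp
  · rw [abs_le]
    constructor
    · have := Real.log_le_self (inv_nonneg.2 hr)
      rw [Real.log_inv] at this
      linarith
    · have := Real.log_le_self hr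
      have h2 : 0 < r⁻¹ := inv_pos.2 h
      linarith

theorem locInt_log : LocallyIntegrable (fun x : ℂ => Real.log ‖x‖) := by
  have h1 : LocallyIntegrable (fun x : ℂ => ‖x‖ + ‖x‖⁻¹) :=
    (continuous_norm.locallyIntegrable).add locInt_inv
  refine h1.mono ?_ (Eventually.of_forall (fun x => ?_))
  · exact (Real.measurable_log.comp measurable_norm).aestronglyMeasurable
  · rw [Real.norm_eq_abs, Real.norm_eq_abs]
    refine (abs_log_le (norm_nonneg x)).trans (le_abs_self _)

theorem locInt_abslog : LocallyIntegrable (fun x : ℂ => |Real.log ‖x‖|) := by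
  refine locInt_log.mono ?_ (Eventually.of_forall (fun x => ?_))
  · exact ((Real.measurable_log.comp measurable_norm).abs).aestronglyMeasurable
  · simp

theorem lInt_mul {k g : ℂ → ℝ} (hk : LocallyIntegrable k) (hg : Continuous g) (hc : HasCompactSupport g) :
    Integrable (fun x => k x * g x) := by
  have h1 : IntegrableOn k (tsupport g) := hk.integrableOn_isCompact hc
  have h2 : Integrable (fun x => g x * k x) := by
    have h3 := h1.continuousOn_mul hg.continuousOn hc
    have h4 : Function.support (fun x => g x * k x) ⊆ tsupport g := by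
      intro x hx
      apply subset_tsupport g
      intro h0
      apply hx
      simp [h0]
    exact (integrableOn_iff_integrable_of_support_subset h4).1 h3
  simpa [mul_comm] using h2

/-! ### regularized logarithm -/

theorem reg_hasFDerivAt {ε : ℝ} (hε : 0 < ε) (x : ℂ) :
    HasFDerivAt (fun x : ℂ => (1/2) * Real.log (‖x‖ ^ 2 + ε ^ 2))
      ((‖x‖ ^ 2 + ε ^ 2)⁻¹ • (innerSL ℝ x)) x := by
  have h1 : HasFDerivAt (fun x : ℂ => ‖x‖ ^ 2) (2 • (innerSL ℝ x)) x := (hasStrictFDerivAt_norm_sq x).hasFDerivAt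
  have h2 : HasFDerivAt (fun x : ℂ => ‖x‖ ^ 2 + ε ^ 2) (2 • (innerSL ℝ x)) x := h1.add_const _
  have h3 : ‖x‖ ^ 2 + ε ^ 2 ≠ 0 := by positivity
  have h4 := (h2.log h3).const_mul (1/2 : ℝ)
  have h5 : (1/2 : ℝ) • (‖x‖ ^ 2 + ε ^ 2)⁻¹ • (2 • (innerSL ℝ x)) = (‖x‖ ^ 2 + ε ^ 2)⁻¹ • (innerSL ℝ x) := by
    rw [smul_comm, ← Nat.cast_smul_eq_nsmul ℝ, smul_smul (1/2 : ℝ)]
    norm_num
  rw [h5] at h4
  exact h4

/-- integration by parts against `log ‖x‖` -/
theorem log_ibp {g : ℂ → ℝ} (hg : ContDiff ℝ 1 g) (hc : HasCompactSupport g) (v : ℂ) :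
    ∫ x : ℂ, Real.log ‖x‖ * fderiv ℝ g x v = - ∫ x : ℂ, (inner ℝ x v / ‖x‖ ^ 2) * g x := by
  set ε : ℕ → ℝ := fun n => 1 / ((n:ℝ) + 1) with hε
  have hε0 : ∀ n, 0 < ε n := fun n => by rw [hε]; positivity
  have hε1 : ∀ n, ε n ≤ 1 := fun n => by
    rw [hε]; simp only
    rw [div_le_one (by positivity)]
    linarith [Nat.cast_nonneg (α := ℝ) n]
  have hεt : Tendsto ε atTop (𝓝 0) := tendsto_one_div_add_atTop_nhds_zero_nat
  have hgc : Continuous g := hg.continuous
  have hdc : Continuous (fun x => fderiv ℝ g x v) := (hg.continuous_fderiv one_ne_zero).clm_apply continuous_const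
  have hds : HasCompactSupport (fun x => fderiv ℝ g x v) := by
    have := hc.fderiv (𝕜 := ℝ)
    apply this.mono
    intro x hx h0
    apply hx
    simp only
    have h1 : fderiv ℝ g x = 0 := h0
    rw [h1]; simp
  -- regularized identity
  have hreg : ∀ n, ∫ x : ℂ, ((1/2) * Real.log (‖x‖ ^ 2 + ε n ^ 2)) * fderiv ℝ g x v =
      - ∫ x : ℂ, (inner ℝ x v / (‖x‖ ^ 2 + ε n ^ 2)) * g x := by
    intro n
    have hLc : Continuous (fun x : ℂ => (1/2) * Real.log (‖x‖ ^ 2 + ε n ^ 2)) :=
      continuous_iff_continuousAt.2 (fun x => (reg_hasFDerivAt (hε0 n) x).continuousAt)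
    have hfd : ∀ x, fderiv ℝ (fun x : ℂ => (1/2) * Real.log (‖x‖ ^ 2 + ε n ^ 2)) x v =
        inner ℝ x v / (‖x‖ ^ 2 + ε n ^ 2) := by
      intro x
      rw [(reg_hasFDerivAt (hε0 n) x).fderiv]
      simp only [smul_apply, innerSL_apply_apply, smul_eq_mul]
      rw [div_eq_inv_mul]
    have hqc : Continuous (fun x : ℂ => inner ℝ x v / (‖x‖ ^ 2 + ε n ^ 2)) := by
      apply Continuous.div (continuous_id.inner continuous_const) (by fun_prop)
      intro x
      have := hε0 n
      positivity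
    have := integral_mul_fderiv_eq_neg_fderiv_mul_of_integrable (μ := (volume : Measure ℂ))
      (f := fun x : ℂ => (1/2) * Real.log (‖x‖ ^ 2 + ε n ^ 2)) (g := g) (v := v)
      (by simp_rw [hfd]; exact lInt_mul hqc.locallyIntegrable hgc hc)
      (lInt_mul hLc.locallyIntegrable hdc hds)
      (lInt_mul hLc.locallyIntegrable hgc hc)
      (fun x _ => (reg_hasFDerivAt (hε0 n) x).differentiableAt)
      (fun x _ => hg.differentiable one_ne_zero x)
    simp_rw [hfd] at this
    exact this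
  have hne : ∀ᵐ x : ℂ, x ≠ 0 := by
    have : (volume : Measure ℂ) {0} = 0 := measure_singleton 0
    exact measure_eq_zero_iff_ae_notMem.1 this
  -- left limit
  have hL : Tendsto (fun n => ∫ x : ℂ, ((1/2) * Real.log (‖x‖ ^ 2 + ε n ^ 2)) * fderiv ℝ g x v) atTop
      (𝓝 (∫ x : ℂ, Real.log ‖x‖ * fderiv ℝ g x v)) := by
    apply tendsto_integral_of_dominated_convergence
      (fun x => ((|Real.log ‖x‖| + ‖x‖ ^ 2) * ‖fderiv ℝ g x v‖))
    · intro n
      apply AEStronglyMeasurable.mul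
      · exact (continuous_iff_continuousAt.2 (fun x => (reg_hasFDerivAt (hε0 n) x).continuousAt)).aestronglyMeasurable
      · exact hdc.aestronglyMeasurable
    · apply lInt_mul (g := fun x => ‖fderiv ℝ g x v‖)
      · exact locInt_abslog.add (continuous_norm.pow 2).locallyIntegrable
      · exact hdc.norm
      · exact hds.norm
    · intro n
      filter_upwards [hne] with x hx
      rw [norm_mul]
      apply mul_le_mul_of_nonneg_right _ (norm_nonneg _)
      have hx0 : 0 < ‖x‖ := norm_pos_iff.2 hx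
      have h1 : Real.log ‖x‖ ≤ (1/2) * Real.log (‖x‖ ^ 2 + ε n ^ 2) := by
        have : Real.log (‖x‖ ^ 2) ≤ Real.log (‖x‖ ^ 2 + ε n ^ 2) := by
          apply Real.log_le_log (by positivity)
          nlinarith [hε0 n]
        rw [Real.log_pow] at this
        push_cast at this
        linarith
      have h2 : (1/2) * Real.log (‖x‖ ^ 2 + ε n ^ 2) ≤ ‖x‖ ^ 2 := by
        have h3 : Real.log (‖x‖ ^ 2 + ε n ^ 2) ≤ ‖x‖ ^ 2 + ε n ^ 2 - 1 :=
          Real.log_le_sub_one_of_pos (by have := hε0 n; positivity)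
        have h4 : ε n ^ 2 ≤ 1 := by
          have := hε0 n; have := hε1 n
          nlinarith
        nlinarith [sq_nonneg ‖x‖]
      rw [Real.norm_eq_abs, abs_le]
      constructor
      · have := neg_abs_le (Real.log ‖x‖)
        nlinarith [sq_nonneg ‖x‖]
      · have := abs_nonneg (Real.log ‖x‖)
        linarith
    · filter_upwards [hne] with x hx
      have hx0 : 0 < ‖x‖ := norm_pos_iff.2 hx
      apply Tendsto.mul_const
      have h1 : Real.log ‖x‖ = (1/2) * Real.log (‖x‖ ^ 2 + 0 ^ 2) := by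
        rw [zero_pow two_ne_zero, add_zero, Real.log_pow]; push_cast; ring
      rw [h1]
      apply Tendsto.const_mul
      apply Tendsto.log
      · exact (tendsto_const_nhds).add (hεt.pow 2)
      · positivity
  have hR : Tendsto (fun n => - ∫ x : ℂ, (inner ℝ x v / (‖x‖ ^ 2 + ε n ^ 2)) * g x) atTop
      (𝓝 (- ∫ x : ℂ, (inner ℝ x v / ‖x‖ ^ 2) * g x)) := by
    apply Tendsto.neg
    apply tendsto_integral_of_dominated_convergence
      (fun x => (‖v‖ * ‖x‖⁻¹) * ‖g x‖)
    · intro n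
      apply AEStronglyMeasurable.mul _ hgc.aestronglyMeasurable
      apply Continuous.aestronglyMeasurable
      apply Continuous.div (continuous_id.inner continuous_const) (by fun_prop)
      intro x
      have := hε0 n
      positivity
    · apply lInt_mul (g := fun x => ‖g x‖)
      · have : LocallyIntegrable (fun x : ℂ => ‖v‖ • ‖x‖⁻¹) := locInt_inv.smul ‖v‖
        simpa [smul_eq_mul] using this
      · exact hgc.norm
      · exact hc.norm
    · intro n
      filter_upwards [hne] with x hx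
      rw [norm_mul]
      apply mul_le_mul_of_nonneg_right _ (norm_nonneg _)
      have hx0 : 0 < ‖x‖ := norm_pos_iff.2 hx
      rw [norm_div]
      have h1 : ‖(inner ℝ x v : ℝ)‖ ≤ ‖x‖ * ‖v‖ := norm_inner_le_norm x v
      have h2 : ‖x‖ ^ 2 ≤ ‖‖x‖ ^ 2 + ε n ^ 2‖ := by
        rw [Real.norm_eq_abs, abs_of_nonneg (by positivity)]
        nlinarith [sq_nonneg (ε n)]
      calc ‖(inner ℝ x v : ℝ)‖ / ‖‖x‖ ^ 2 + ε n ^ 2‖ ≤ (‖x‖ * ‖v‖) / ‖x‖ ^ 2 := by gcongr
        _ = ‖v‖ * ‖x‖⁻¹ := by field_simp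
    · filter_upwards [hne] with x hx
      have hx0 : 0 < ‖x‖ := norm_pos_iff.2 hx
      apply Tendsto.mul_const
      apply Tendsto.div tendsto_const_nhds
      · have : Tendsto (fun n => ‖x‖ ^ 2 + ε n ^ 2) atTop (𝓝 (‖x‖ ^ 2 + 0 ^ 2)) :=
          (tendsto_const_nhds).add (hεt.pow 2)
        simpa using this
      · positivity
  simp_rw [hreg] at hL
  exact tendsto_nhds_unique hL hR

/-- second order part of the Laplacian as iterated `fderiv` -/
theorem lap_eq {f : ℂ → ℝ} {x : ℂ} (hf : ContDiffAt ℝ 2 f x) :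
    laplacian f x = fderiv ℝ (fun y => fderiv ℝ f y 1) x 1 +
      fderiv ℝ (fun y => fderiv ℝ f y Complex.I) x Complex.I := by
  rw [laplacian_eq_iteratedFDeriv_complexPlane]
  have hd : DifferentiableAt ℝ (fderiv ℝ f) x :=
    (hf.fderiv_right (m := 1) (by norm_num)).differentiableAt one_ne_zero
  have key : ∀ v : ℂ, iteratedFDeriv ℝ 2 f x ![v, v] = fderiv ℝ (fun y => fderiv ℝ f y v) x v := by
    intro v
    rw [iteratedFDeriv_two_apply]
    simp only [Matrix.cons_val_zero, Matrix.cons_val_one]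
    have := hd.hasFDerivAt.clm_apply (hasFDerivAt_const v x)
    rw [this.fderiv]
    simp
  simp only [key]

theorem inner_split (x : ℂ) (L : ℂ →L[ℝ] ℝ) :
    (inner ℝ x (1:ℂ) : ℝ) * L 1 + (inner ℝ x Complex.I : ℝ) * L Complex.I = L x := by
  have h1 : x = x.re • (1:ℂ) + x.im • Complex.I := by
    apply Complex.ext <;> simp
  have h2 : L x = x.re * L 1 + x.im * L Complex.I := by
    conv_lhs => rw [h1]
    rw [map_add, map_smul, map_smul, smul_eq_mul, smul_eq_mul]
  rw [h2, Complex.inner, Complex.inner]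
  simp

/-- **fundamental solution** of the planar Laplacian -/
theorem fund_log {f : ℂ → ℝ} (hf : ContDiff ℝ 2 f) (hc : HasCompactSupport f) :
    ∫ x : ℂ, Real.log ‖x‖ * laplacian f x = 2 * Real.pi * f 0 := by
  have hd : ∀ v : ℂ, ContDiff ℝ 1 (fun y => fderiv ℝ f y v) := fun v =>
    (hf.fderiv_right (m := 1) (by norm_num)).clm_apply contDiff_const
  have hs : ∀ v : ℂ, HasCompactSupport (fun y => fderiv ℝ f y v) := by
    intro v
    apply (hc.fderiv (𝕜 := ℝ)).mono
    intro x hx h0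
    apply hx
    have h1 : fderiv ℝ f x = 0 := h0
    simp only [h1]; simp
  have hdd : ∀ v w : ℂ, Continuous (fun x => fderiv ℝ (fun y => fderiv ℝ f y v) x w) := fun v w =>
    ((hd v).continuous_fderiv one_ne_zero).clm_apply continuous_const
  have hdds : ∀ v w : ℂ, HasCompactSupport (fun x => fderiv ℝ (fun y => fderiv ℝ f y v) x w) := by
    intro v w
    apply ((hs v).fderiv (𝕜 := ℝ)).mono
    intro x hx h0
    apply hx
    have h1 : fderiv ℝ (fun y => fderiv ℝ f y v) x = 0 := h0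
    simp only [h1]; simp
  have e1 : ∀ x, Real.log ‖x‖ * laplacian f x =
      Real.log ‖x‖ * fderiv ℝ (fun y => fderiv ℝ f y 1) x 1 +
      Real.log ‖x‖ * fderiv ℝ (fun y => fderiv ℝ f y Complex.I) x Complex.I := by
    intro x
    rw [lap_eq hf.contDiffAt, mul_add]
  simp_rw [e1]
  rw [integral_add (lInt_mul locInt_log (hdd 1 1) (hdds 1 1))
    (lInt_mul locInt_log (hdd _ _) (hdds _ _)), log_ibp (hd 1) (hs 1), log_ibp (hd _) (hs _)]
  have hli : ∀ v : ℂ, LocallyIntegrable (fun x : ℂ => (inner ℝ x v : ℝ) / ‖x‖ ^ 2) := by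
    intro v
    have h0 : LocallyIntegrable (fun x : ℂ => ‖v‖ * ‖x‖⁻¹) := by
      have : LocallyIntegrable (fun x : ℂ => ‖v‖ • ‖x‖⁻¹) := locInt_inv.smul ‖v‖
      simpa [smul_eq_mul] using this
    refine h0.mono ?_ (Eventually.of_forall (fun x => ?_))
    · apply Measurable.aestronglyMeasurable
      exact ((continuous_id.inner continuous_const).measurable).div (measurable_norm.pow_const 2)
    · rcases eq_or_ne x 0 with rfl | hx
      · simp
      · have hx0 : 0 < ‖x‖ := norm_pos_iff.2 hx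
        rw [norm_div, norm_pow, norm_norm, norm_mul, norm_norm, norm_inv, norm_norm]
        have h1 : ‖(inner ℝ x v : ℝ)‖ ≤ ‖x‖ * ‖v‖ := norm_inner_le_norm x v
        calc ‖(inner ℝ x v : ℝ)‖ / ‖x‖ ^ 2 ≤ (‖x‖ * ‖v‖) / ‖x‖ ^ 2 := by gcongr
          _ = ‖v‖ * ‖x‖⁻¹ := by field_simp
  rw [← neg_add, ← integral_add (lInt_mul (hli 1) (hd 1).continuous (hs 1))
    (lInt_mul (hli _) (hd _).continuous (hs _))]
  have e2 : ∀ x : ℂ, (inner ℝ x (1:ℂ) : ℝ) / ‖x‖ ^ 2 * fderiv ℝ f x 1 +
      (inner ℝ x Complex.I : ℝ) / ‖x‖ ^ 2 * fderiv ℝ f x Complex.I = fderiv ℝ f x x / ‖x‖ ^ 2 := by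
    intro x
    rw [← inner_split x (fderiv ℝ f x)]
    ring
  simp_rw [e2]
  rw [fund_grad (hf.of_le (by norm_num)) hc]
  ring

/-- translated form -/
theorem fund_log' {f : ℂ → ℝ} (hf : ContDiff ℝ 2 f) (hc : HasCompactSupport f) (y : ℂ) :
    ∫ x : ℂ, Real.log ‖x - y‖ * laplacian f x = 2 * Real.pi * f y := by
  have h1 : ContDiff ℝ 2 (fun x => f (x + y)) := hf.comp (contDiff_id.add contDiff_const)
  have h2 : HasCompactSupport (fun x => f (x + y)) := hc.comp_homeomorph (Homeomorph.addRight y)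
  have h3 := fund_log h1 h2
  have h4 : ∀ x, laplacian (fun x => f (x + y)) x = laplacian f (x + y) := by
    intro x
    rw [lap_eq h1.contDiffAt, lap_eq hf.contDiffAt]
    have e1 : ∀ v x : ℂ, fderiv ℝ (fun x => f (x + y)) x v = fderiv ℝ f (x + y) v := by
      intro v x
      rw [fderiv_comp_add_right]
    simp_rw [e1]
    have e2 : ∀ v : ℂ, fderiv ℝ (fun z => fderiv ℝ f (z + y) v) x v =
        fderiv ℝ (fun z => fderiv ℝ f z v) (x + y) v := by
      intro v
      rw [fderiv_comp_add_right y (f := fun z => fderiv ℝ f z v)]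
    rw [e2, e2]
  simp_rw [h4] at h3
  rw [← integral_add_right_eq_self (μ := volume) (fun x => Real.log ‖x - y‖ * laplacian f x) y]
  simpa using h3

end

end Pool.Agent.Helper6.LE
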